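import Mathlib

/-!
Project LR: limits along subsequences, with increments and a lower bound for the rate (adapted from
`Pool.Agent.Y143.LR.SUB2` of helper143).
-/

set_option autoImplicit false

namespace Pool.Agent.Y197.LR.Sub3

open Filter Set

theorem tele {f : ℕ → ℝ} {β K : ℝ} {w d : ℕ}
    (h : ∀ j, w ≤ j → |f (j + 1) - f j + β| ≤ K) : |f (w + d) - f w + β * d| ≤ d * K := by
  induction d with
  | zero => simp
  | succ d ih =>
    have h1 := h (w + d) (Nat.le_add_right _ _)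
    have h2 : f (w + (d + 1)) - f w + β * ((d + 1 : ℕ) : ℝ) =
        (f (w + d + 1) - f (w + d) + β) + (f (w + d) - f w + β * d) := by
      rw [← add_assoc w d 1]
      push_cast
      ring
    rw [h2]
    refine (abs_add_le _ _).trans ?_
    push_cast
    linarith

/-- `S_SUB2` with a separate lower bound for the rate. -/
theorem main : ∀ (c C b₀ : ℝ) (q : ℕ → ℕ → ℝ), 0 < c → 0 < C → 0 ≤ b₀ →
  (∀ n w : ℕ, 1 ≤ n → 1 ≤ w → 0 < q w n) →
  (∀ n : ℕ, 1 ≤ n → ∃ A β : ℝ, 1 / C ≤ A ∧ A ≤ C ∧ b₀ / (n + 1) ≤ β ∧ β ≤ C / n ∧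
    (∀ w : ℕ, 1 ≤ w →
      |q w n / (A * Real.exp (-β * w)) - 1| ≤ C * Real.exp (-c * w / n)) ∧
    ∀ w : ℕ, n ≤ w →
      |Real.log (q (w + 1) n) - Real.log (q w n) + β| ≤ C * Real.exp (-c * w / n) / n) →
  ∀ u : ℕ → ℕ, Tendsto u atTop atTop → ∃ A b : ℝ, 1 / C ≤ A ∧ A ≤ C ∧ b₀ ≤ b ∧ b ≤ C ∧
    (∀ (v : ℕ → ℕ) (l γ : ℝ), 0 < l → Tendsto (fun k => (v k : ℝ) / u k) atTop (nhds l) →
      Tendsto (fun k => q (v k) (u k)) atTop (nhds γ) →
      |γ / (A * Real.exp (-b * l)) - 1| ≤ C * Real.exp (-c * l)) ∧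
    (∀ (v v' : ℕ → ℕ) (l l' γ γ' : ℝ), 1 < l → l < l' →
      Tendsto (fun k => (v k : ℝ) / u k) atTop (nhds l) →
      Tendsto (fun k => (v' k : ℝ) / u k) atTop (nhds l') →
      Tendsto (fun k => q (v k) (u k)) atTop (nhds γ) →
      Tendsto (fun k => q (v' k) (u k)) atTop (nhds γ') → 0 < γ → 0 < γ' →
      |Real.log γ' - Real.log γ + b * (l' - l)| ≤ C * Real.exp (-c * l) * (l' - l)) := by
  intro c C b₀ q hc hC hb₀ hq0 h u hu
  choose! A β h1 h2 h3 h4 h5 h6 using h
  let N : ℕ → ℕ := fun k => max (u k) 1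
  have hN : ∀ k, 1 ≤ N k := fun k => le_max_right _ _
  have hNr : ∀ k, (0 : ℝ) < N k := fun k => by exact_mod_cast hN k
  let x : ℕ → ℝ × ℝ := fun k => (A (N k), β (N k) * N k)
  have hx : ∀ k, x k ∈ Icc (1 / C) C ×ˢ Icc 0 C := by
    intro k
    refine ⟨⟨h1 _ (hN k), h2 _ (hN k)⟩, ?_, ?_⟩
    · exact mul_nonneg (le_trans (by positivity) (h3 _ (hN k))) (hNr k).le
    · exact (le_div_iff₀ (hNr k)).1 (h4 _ (hN k))
  obtain ⟨⟨a, b⟩, ⟨⟨ha1, ha2⟩, -, hb2⟩, φ, hφ, hlim⟩ :=
    (isCompact_Icc.prod isCompact_Icc).tendsto_subseq hx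
  have ha0 : 0 < a := lt_of_lt_of_le (by positivity) ha1
  have hφt : Tendsto φ atTop atTop := hφ.tendsto_atTop
  have l1 : Tendsto (fun k => (x (φ k)).1) atTop (nhds a) :=
    (continuous_fst.tendsto (a, b)).comp hlim
  have l2 : Tendsto (fun k => (x (φ k)).2) atTop (nhds b) :=
    (continuous_snd.tendsto (a, b)).comp hlim
  have e1 : ∀ᶠ k in atTop, 1 ≤ u (φ k) := (hu.comp hφt).eventually_ge_atTop 1
  have hb1 : b₀ ≤ b := by
    have hu' : Tendsto (fun k => (u (φ k) : ℝ)) atTop atTop :=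
      tendsto_natCast_atTop_atTop.comp (hu.comp hφt)
    have m0 : Tendsto (fun k => b₀ * (1 - 1 / ((u (φ k) : ℝ) + 1))) atTop (nhds (b₀ * (1 - 0))) := by
      refine tendsto_const_nhds.mul (tendsto_const_nhds.sub ?_)
      exact (tendsto_atTop_add_const_right _ 1 hu').const_div_atTop 1
    rw [sub_zero, mul_one] at m0
    refine le_of_tendsto_of_tendsto m0 l2 ?_
    filter_upwards [e1] with k hk1
    have hNk : N (φ k) = u (φ k) := max_eq_left hk1
    have hur : (0 : ℝ) < u (φ k) := by exact_mod_cast hk1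
    simp only [x, hNk]
    have h7 := h3 (u (φ k)) hk1
    have h8 : b₀ / ((u (φ k) : ℝ) + 1) * u (φ k) ≤ β (u (φ k)) * u (φ k) :=
      mul_le_mul_of_nonneg_right h7 hur.le
    refine le_trans (le_of_eq ?_) h8
    field_simp
    ring
  refine ⟨a, b, ha1, ha2, hb1, hb2, ?_, ?_⟩
  · intro v l γ hl hv hq
    have hv' := hv.comp hφt
    have hq' := hq.comp hφt
    have l3 : Tendsto (fun k => (x (φ k)).1 * Real.exp (-(x (φ k)).2 * ((v (φ k) : ℝ) / u (φ k))))
        atTop (nhds (a * Real.exp (-b * l))) := by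
      refine l1.mul ((Real.continuous_exp.tendsto _).comp (l2.neg.mul ?_))
      exact hv'
    have hne : a * Real.exp (-b * l) ≠ 0 := by positivity
    have l4 : Tendsto (fun k => |q (v (φ k)) (u (φ k)) /
        ((x (φ k)).1 * Real.exp (-(x (φ k)).2 * ((v (φ k) : ℝ) / u (φ k)))) - 1|) atTop
        (nhds |γ / (a * Real.exp (-b * l)) - 1|) :=
      ((hq'.div l3 hne).sub_const 1).abs
    have l5 : Tendsto (fun k => C * Real.exp (-c * ((v (φ k) : ℝ) / u (φ k)))) atTop
        (nhds (C * Real.exp (-c * l))) := by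
      refine tendsto_const_nhds.mul ((Real.continuous_exp.tendsto _).comp ?_)
      exact tendsto_const_nhds.mul hv'
    refine le_of_tendsto_of_tendsto l4 l5 ?_
    have e2 : ∀ᶠ k in atTop, 0 < (v (φ k) : ℝ) / u (φ k) := hv'.eventually_const_lt hl
    filter_upwards [e1, e2] with k hk1 hk2
    have hNk : N (φ k) = u (φ k) := max_eq_left hk1
    have hvk : 1 ≤ v (φ k) := by
      by_contra hcon
      have h0 : v (φ k) = 0 := by omega
      rw [h0] at hk2
      simp at hk2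
    have hur : (0 : ℝ) < u (φ k) := by exact_mod_cast hk1
    have h6 := h5 (u (φ k)) hk1 (v (φ k)) hvk
    have e3 : (x (φ k)).1 = A (u (φ k)) := by simp only [x, hNk]
    have e4 : -(x (φ k)).2 * ((v (φ k) : ℝ) / u (φ k)) = -β (u (φ k)) * v (φ k) := by
      simp only [x, hNk]
      field_simp
    have e5 : -c * ((v (φ k) : ℝ) / u (φ k)) = -c * v (φ k) / u (φ k) := by ring
    rw [e3, e4, e5]
    exact h6
  · intro v v' l l' γ γ' hl hll hv hv' hq hq' hγ hγ'
    have hv1 := hv.comp hφt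
    have hv2 := hv'.comp hφt
    have hq1 := hq.comp hφt
    have hq2 := hq'.comp hφt
    have m1 : Tendsto (fun k => |Real.log (q (v' (φ k)) (u (φ k))) -
        Real.log (q (v (φ k)) (u (φ k))) +
        (x (φ k)).2 * ((v' (φ k) : ℝ) / u (φ k) - (v (φ k) : ℝ) / u (φ k))|) atTop
        (nhds |Real.log γ' - Real.log γ + b * (l' - l)|) := by
      refine Tendsto.abs (Tendsto.add (Tendsto.sub ?_ ?_) (l2.mul (hv2.sub hv1)))
      · exact hq2.log hγ'.ne'
      · exact hq1.log hγ.ne'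
    have m2 : Tendsto (fun k => C * Real.exp (-c * ((v (φ k) : ℝ) / u (φ k))) *
        ((v' (φ k) : ℝ) / u (φ k) - (v (φ k) : ℝ) / u (φ k))) atTop
        (nhds (C * Real.exp (-c * l) * (l' - l))) := by
      refine Tendsto.mul (tendsto_const_nhds.mul ((Real.continuous_exp.tendsto _).comp ?_))
        (hv2.sub hv1)
      exact tendsto_const_nhds.mul hv1
    refine le_of_tendsto_of_tendsto m1 m2 ?_
    have e2 : ∀ᶠ k in atTop, 1 < (v (φ k) : ℝ) / u (φ k) := hv1.eventually_const_lt hl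
    have e3 : ∀ᶠ k in atTop, (v (φ k) : ℝ) / u (φ k) < (v' (φ k) : ℝ) / u (φ k) :=
      hv1.eventually_lt hv2 hll
    filter_upwards [e1, e2, e3] with k hk1 hk2 hk3
    have hNk : N (φ k) = u (φ k) := max_eq_left hk1
    have hur : (0 : ℝ) < u (φ k) := by exact_mod_cast hk1
    have hvn : u (φ k) ≤ v (φ k) := by
      have h7 := (one_lt_div hur).1 hk2
      exact_mod_cast h7.le
    have hvv : v (φ k) ≤ v' (φ k) := by
      have h7 := (div_lt_div_iff_of_pos_right hur).1 hk3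
      exact_mod_cast h7.le
    have key := tele (f := fun j => Real.log (q j (u (φ k)))) (β := β (u (φ k)))
      (K := C * Real.exp (-c * v (φ k) / u (φ k)) / u (φ k)) (w := v (φ k))
      (d := v' (φ k) - v (φ k)) (by
        intro j hj
        refine (h6 (u (φ k)) hk1 j (hvn.trans hj)).trans ?_
        have hjr : (v (φ k) : ℝ) ≤ j := by exact_mod_cast hj
        have h8 : -c * (j : ℝ) / u (φ k) ≤ -c * v (φ k) / u (φ k) :=
          div_le_div_of_nonneg_right (by nlinarith) hur.le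
        exact div_le_div_of_nonneg_right
          (mul_le_mul_of_nonneg_left (Real.exp_le_exp.2 h8) hC.le) hur.le)
    have hsum : v (φ k) + (v' (φ k) - v (φ k)) = v' (φ k) := by omega
    rw [hsum, Nat.cast_sub hvv] at key
    have e4 : (x (φ k)).2 * ((v' (φ k) : ℝ) / u (φ k) - (v (φ k) : ℝ) / u (φ k)) =
        β (u (φ k)) * ((v' (φ k) : ℝ) - v (φ k)) := by
      simp only [x, hNk]
      field_simp
    have e5 : C * Real.exp (-c * ((v (φ k) : ℝ) / u (φ k))) *
        ((v' (φ k) : ℝ) / u (φ k) - (v (φ k) : ℝ) / u (φ k)) =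
        ((v' (φ k) : ℝ) - v (φ k)) * (C * Real.exp (-c * v (φ k) / u (φ k)) / u (φ k)) := by
      have e6 : -c * ((v (φ k) : ℝ) / u (φ k)) = -c * v (φ k) / u (φ k) := by ring
      rw [e6]
      field_simp
    rw [e4, e5]
    exact key

end Pool.Agent.Y197.LR.Sub3
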