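import Pool.Agent.Y197.LR.Last2
import Pool.Agent.Y197.LR.Sub3
import Pool.Agent.Y197.SD.Lim

/-!
Project LR: the final forms, with an explicit lower bound for the rate, and with one pair of
functions `A, b` for long and high rectangles.
-/

set_option autoImplicit false

namespace Pool.Agent.Y197.LR.Last3

open H974 Finset Filter Topology Pool.Agent.Y197.LR.Last Pool.Agent.Y197.LR.Last2

/-- The rate is at least `log 2 / (n + 1)`. -/
theorem rate_low {n : ℕ} (hn : 1 ≤ n) {A β c C : ℝ} (hA : 0 < A) (hc : 0 < c)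
    (h : ∀ w : ℕ, 1 ≤ w →
      |hh (1/2) w n / (A * Real.exp (-β * w)) - 1| ≤ C * Real.exp (-c * w / n)) :
    Real.log 2 / (n + 1) ≤ β := by
  have hnr : (0:ℝ) < n := by exact_mod_cast (show 0 < n by omega)
  have hlim : Tendsto (fun w : ℕ => hh (1/2) w n / (A * Real.exp (-β * w))) atTop (𝓝 1) := by
    have e1 : Tendsto (fun w : ℕ => -c * (w:ℝ) / n) atTop atBot := by
      have : (fun w : ℕ => -c * (w:ℝ) / n) = fun w : ℕ => (-c / n) * (w:ℝ) := by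
        funext w; ring
      rw [this]
      exact Tendsto.const_mul_atTop_of_neg (div_neg_of_neg_of_pos (by linarith) hnr)
        tendsto_natCast_atTop_atTop
    have e2 := (Real.tendsto_exp_atBot.comp e1).const_mul C
    rw [mul_zero] at e2
    rw [tendsto_iff_norm_sub_tendsto_zero]
    refine squeeze_zero' (Eventually.of_forall fun w => norm_nonneg _) ?_ e2
    filter_upwards [eventually_ge_atTop 1] with w hw
    rw [Real.norm_eq_abs]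
    exact h w hw
  have h2 : ∀ᶠ w : ℕ in atTop, hh (1/2) (w + (n + 1) : ℕ) n / (A * Real.exp (-β * (w + (n + 1) : ℕ))) *
      Real.exp (-β * (n + 1)) ≤ 1 / 2 * (hh (1/2) w n / (A * Real.exp (-β * w))) := by
    filter_upwards [eventually_ge_atTop 1] with w hw
    have h3 := Pool.Agent.Y845.LR.GR.split_le (n:ℤ) (w:ℤ) ((n:ℤ) + 1) (by omega) (by omega)
    rw [hh_half (n:ℤ) (by omega)] at h3
    have e : Real.exp (-β * ((w + (n + 1) : ℕ) : ℝ)) = Real.exp (-β * w) * Real.exp (-β * (n + 1)) := by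
      rw [← Real.exp_add]
      congr 1
      push_cast
      ring
    have c1 : ((w + (n + 1) : ℕ) : ℤ) = (w:ℤ) + ((n:ℤ) + 1) := by push_cast; ring
    rw [e, c1]
    have p1 := Real.exp_pos (-β * (w:ℝ))
    have p2 := Real.exp_pos (-β * ((n:ℝ) + 1))
    have e3 : hh (1/2) ((w:ℤ) + ((n:ℤ) + 1)) n /
        (A * (Real.exp (-β * w) * Real.exp (-β * (n + 1)))) * Real.exp (-β * (n + 1)) =
        hh (1/2) ((w:ℤ) + ((n:ℤ) + 1)) n / (A * Real.exp (-β * w)) := by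
      field_simp
    rw [e3, ← mul_div_assoc]
    apply div_le_div_of_nonneg_right _ (by positivity)
    linarith
  have h4 := (hlim.comp (tendsto_add_atTop_nat (n + 1))).mul_const (Real.exp (-β * (n + 1)))
  have h5 := hlim.const_mul (1/2)
  have h6 := le_of_tendsto_of_tendsto h4 h5 h2
  rw [one_mul, mul_one] at h6
  have h7 := (Real.log_le_log (Real.exp_pos _) h6)
  rw [Real.log_exp, one_div, Real.log_inv] at h7
  rw [div_le_iff₀ (by positivity)]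
  linarith

theorem aux {a b K : ℕ} (hK : 1 ≤ K * K) (ha : 2 ≤ a) (hb : 2 ≤ b) (h : b ≤ 2 * K * K * a) :
    b + 1 ≤ 8 * K * K * (a - 1) := by
  obtain ⟨a', ha'⟩ : ∃ a', a = a' + 2 := ⟨a - 2, by omega⟩
  subst ha'
  have e : a' + 2 - 1 = a' + 1 := by omega
  rw [e]
  have h1 : 2 * K * K * (a' + 2) ≤ 2 * K * K * (2 * (a' + 1)) :=
    Nat.mul_le_mul_left _ (by omega)
  have h2 : 2 * K * K * (2 * (a' + 1)) + 2 * K * K * (2 * (a' + 1)) = 8 * K * K * (a' + 1) := by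
    ring
  omega

/-- Duality for the limits of crossing probabilities. -/
theorem dual_lim {ψ : ℕ → ℕ} (hψ : Tendsto ψ atTop atTop) {L l γ : ℝ} (hL : 0 < L) (hl : 0 < l)
    (h : Tendsto (fun k => hh (1/2) ⌊L * ψ k⌋₊ ⌊l * ψ k⌋₊) atTop (𝓝 γ)) :
    Tendsto (fun k => hh (1/2) ⌊l * ψ k⌋₊ ⌊L * ψ k⌋₊) atTop (𝓝 (1 - γ)) := by
  obtain ⟨K, hK⟩ := exists_nat_ge (max (max L l) (max (1 / L) (1 / l)))
  have k1 : L ≤ K := ((le_max_left _ _).trans (le_max_left _ _)).trans hK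
  have k2 : l ≤ K := ((le_max_right _ _).trans (le_max_left _ _)).trans hK
  have k3 : 1 / L ≤ K := ((le_max_left _ _).trans (le_max_right _ _)).trans hK
  have k4 : 1 / l ≤ K := ((le_max_right _ _).trans (le_max_right _ _)).trans hK
  have Kpos : (0:ℝ) < K := by linarith
  have hK1 : 1 ≤ K := by
    have : 0 < K := by exact_mod_cast Kpos
    omega
  have k5 : 1 / (K:ℝ) ≤ L := by
    rw [div_le_iff₀ Kpos]
    rw [div_le_iff₀ hL] at k3
    linarith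
  have k6 : 1 / (K:ℝ) ≤ l := by
    rw [div_le_iff₀ Kpos]
    rw [div_le_iff₀ hl] at k4
    linarith
  obtain ⟨c, C, hc, hC, hb⟩ := Pool.Agent.W424.AR.bdd (8 * K * K) (by nlinarith)
  have hψr : Tendsto (fun k => (ψ k : ℝ)) atTop atTop := tendsto_natCast_atTop_atTop.comp hψ
  have hdiff : Tendsto (fun k => hh (1/2) ⌊l * ψ k⌋₊ ⌊L * ψ k⌋₊ -
      (1 - hh (1/2) ⌊L * ψ k⌋₊ ⌊l * ψ k⌋₊)) atTop (𝓝 0) := by
    rw [tendsto_zero_iff_norm_tendsto_zero]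
    have hsm : Tendsto (fun k => 2 * (C * (2 * K)) / (ψ k : ℝ)) atTop (𝓝 0) :=
      hψr.const_div_atTop _
    refine squeeze_zero' (Eventually.of_forall fun k => norm_nonneg _) ?_ hsm
    filter_upwards [hψ.eventually_ge_atTop (2 * K * 2)] with k hk
    obtain ⟨a1, a2, a3⟩ := Pool.Agent.W424.AR.floors K hK1 k5 k1 hk
    obtain ⟨b1, b2, b3⟩ := Pool.Agent.W424.AR.floors K hK1 k6 k2 hk
    have ψpos : (0:ℝ) < ψ k := by
      have : 0 < ψ k := by nlinarith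
      exact_mod_cast this
    rw [div_le_iff₀ (by positivity)] at a1 b1
    set a : ℕ := ⌊L * ψ k⌋₊ with ha
    set b : ℕ := ⌊l * ψ k⌋₊ with hbd
    have z1 : (a:ℝ) ≤ 2 * K * K * b := by nlinarith
    have z2 : (b:ℝ) ≤ 2 * K * K * a := by nlinarith
    have y1 : a ≤ 2 * K * K * b := by exact_mod_cast z1
    have y2 : b ≤ 2 * K * K * a := by exact_mod_cast z2
    have hKK : 1 ≤ K * K := by nlinarith
    -- step in the width
    have s1 := (hb (b:ℤ) (a:ℤ) (by omega) (by omega)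
      (by
        have : b ≤ 8 * K * K * a := by nlinarith
        exact_mod_cast this)
      (by
        have : a ≤ 8 * K * K * b := by nlinarith
        exact_mod_cast this)).1
    -- step in the height
    have s2 := (hb ((b:ℤ) + 1) ((a:ℤ) - 1) (by omega) (by omega)
      (by
        have h1 : b + 1 ≤ 8 * K * K * (a - 1) := aux hKK a3 b3 y2
        have h3 : ((b + 1 : ℕ) : ℤ) ≤ ((8 * K * K * (a - 1) : ℕ) : ℤ) := by exact_mod_cast h1
        push_cast [Nat.cast_sub (show 1 ≤ a by omega)] at h3 ⊢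
        exact h3)
      (by
        have h1 : a ≤ 8 * K * K * (b + 1) := by nlinarith
        have h3 : ((a : ℕ) : ℤ) ≤ ((8 * K * K * (b + 1) : ℕ) : ℤ) := by exact_mod_cast h1
        push_cast at h3 ⊢
        linarith)).2
    rw [sub_add_cancel] at s2
    rw [Pool.Agent.W424.AR.dualhalf (w := (a : ℤ)) (h := (b : ℤ)) (by omega) (by omega),
      Real.norm_eq_abs]
    have apos : (0:ℝ) < a := by exact_mod_cast (show 0 < a by omega)
    have bpos : (0:ℝ) < b := by exact_mod_cast (show 0 < b by omega)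
    have t1 : C / (a:ℝ) ≤ C * (2 * K) / ψ k := by
      rw [div_le_div_iff₀ apos ψpos]
      nlinarith
    have t2 : C / ((b:ℝ) + 1) ≤ C * (2 * K) / ψ k := by
      rw [div_le_div_iff₀ (by positivity) ψpos]
      nlinarith
    have t3 : 2 * (C * (2 * K)) / (ψ k : ℝ) = C * (2 * K) / ψ k + C * (2 * K) / ψ k := by ring
    rw [t3]
    push_cast at s1 s2
    have q1 : 0 ≤ c / (a:ℝ) := by positivity
    have q2 : 0 ≤ c / ((b:ℝ) + 1) := by positivity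
    rw [abs_le]
    constructor <;> linarith [s1.1, s1.2, s2.1, s2.2]
  have h9 := hdiff.add ((tendsto_const_nhds (x := (1:ℝ))).sub h)
  rw [zero_add] at h9
  refine h9.congr ?_
  intro k
  ring

theorem final3 (hB : S_BND) : ∃ c C : ℝ, 0 < c ∧ 0 < C ∧
    (∀ n : ℕ, 1 ≤ n →
      ∃ (A β : ℝ) (Φ : Finset ℤ → ℝ), (1 / C ≤ A ∧ A ≤ C) ∧
      (Real.log 2 / (n + 1) ≤ β ∧ β ≤ C / n) ∧
      Φ (Icc (0:ℤ) n) = 1 ∧
      (∀ T : Finset ℤ, T ⊆ Icc (0:ℤ) n → T.Nonempty → 0 < Φ T ∧ Φ T ≤ 1) ∧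
      (∀ w : ℕ, 1 ≤ w →
        |hh (1/2) w n / (A * Real.exp (-β * w)) - 1| ≤ C * Real.exp (-c * w / n)) ∧
      (∀ w : ℕ, 3 * n + 2 ≤ w → ∀ T S : Finset ℤ, T ⊆ Icc (0:ℤ) n → T.Nonempty →
        S ⊆ Icc (0:ℤ) n → S.Nonempty →
        |Q n w T S / (A * Φ T * Φ S * Real.exp (-β * w)) - 1| ≤
          C * Real.exp (-c * w / n)) ∧
      (∀ w : ℕ, n ≤ w →
        |Real.log (hh (1/2) (w + 1 : ℕ) n) - Real.log (hh (1/2) w n) + β| ≤
          C * Real.exp (-c * w / n) / n)) ∧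
    (∀ ψ : ℕ → ℕ, Tendsto ψ atTop atTop → ∃ A b : ℝ → ℝ,
      (∀ l : ℝ, 0 < l → (1 / C ≤ A l ∧ A l ≤ C) ∧ (Real.log 2 ≤ b l ∧ b l ≤ C)) ∧
      (∀ L l γ : ℝ, 0 < L → 0 < l →
        Tendsto (fun k => hh (1/2) ⌊L * ψ k⌋₊ ⌊l * ψ k⌋₊) atTop (𝓝 γ) →
        |γ / (A l * Real.exp (-b l * (L / l))) - 1| ≤ C * Real.exp (-c * (L / l)) ∧
        |(1 - γ) / (A L * Real.exp (-b L * (l / L))) - 1| ≤ C * Real.exp (-c * (l / L))) ∧
      (∀ L L' l γ γ' : ℝ, 0 < l → l < L → L < L' →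
        Tendsto (fun k => hh (1/2) ⌊L * ψ k⌋₊ ⌊l * ψ k⌋₊) atTop (𝓝 γ) →
        Tendsto (fun k => hh (1/2) ⌊L' * ψ k⌋₊ ⌊l * ψ k⌋₊) atTop (𝓝 γ') →
        |Real.log γ' - Real.log γ + b l * ((L' - L) / l)| ≤
          C * Real.exp (-c * (L / l)) * ((L' - L) / l)) ∧
      (∀ L l l' γ γ' : ℝ, 0 < L → L < l → l < l' →
        Tendsto (fun k => hh (1/2) ⌊L * ψ k⌋₊ ⌊l * ψ k⌋₊) atTop (𝓝 γ) →
        Tendsto (fun k => hh (1/2) ⌊L * ψ k⌋₊ ⌊l' * ψ k⌋₊) atTop (𝓝 γ') →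
        |Real.log (1 - γ') - Real.log (1 - γ) + b L * ((l' - l) / L)| ≤
          C * Real.exp (-c * (l / L)) * ((l' - l) / L))) := by
  obtain ⟨c, C, hc, hC, hf⟩ := finite2 hB
  have hf' : ∀ n : ℕ, 1 ≤ n →
      ∃ (A β : ℝ) (Φ : Finset ℤ → ℝ), (1 / C ≤ A ∧ A ≤ C) ∧
      (Real.log 2 / (n + 1) ≤ β ∧ β ≤ C / n) ∧
      Φ (Icc (0:ℤ) n) = 1 ∧
      (∀ T : Finset ℤ, T ⊆ Icc (0:ℤ) n → T.Nonempty → 0 < Φ T ∧ Φ T ≤ 1) ∧
      (∀ w : ℕ, 1 ≤ w →
        |hh (1/2) w n / (A * Real.exp (-β * w)) - 1| ≤ C * Real.exp (-c * w / n)) ∧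
      (∀ w : ℕ, 3 * n + 2 ≤ w → ∀ T S : Finset ℤ, T ⊆ Icc (0:ℤ) n → T.Nonempty →
        S ⊆ Icc (0:ℤ) n → S.Nonempty →
        |Q n w T S / (A * Φ T * Φ S * Real.exp (-β * w)) - 1| ≤
          C * Real.exp (-c * w / n)) ∧
      (∀ w : ℕ, n ≤ w →
        |Real.log (hh (1/2) (w + 1 : ℕ) n) - Real.log (hh (1/2) w n) + β| ≤
          C * Real.exp (-c * w / n) / n) := by
    intro n hn
    obtain ⟨A, β, Φ, ⟨a1, a2⟩, ⟨-, a4⟩, a5, a6, a7, a8, a9⟩ := hf n hn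
    exact ⟨A, β, Φ, ⟨a1, a2⟩, ⟨rate_low hn (lt_of_lt_of_le (by positivity) a1) hc a7, a4⟩,
      a5, a6, a7, a8, a9⟩
  have hS' := Sub3.main c C (Real.log 2) (fun w n => hh (1/2) w n) hc hC
    (Real.log_nonneg (by norm_num)) (fun n w hn hw => hh_pos hn hw) (by
    intro n hn
    obtain ⟨A, β, Φ, ⟨a1, a2⟩, ⟨a3, a4⟩, -, -, a5, -, a6⟩ := hf' n hn
    exact ⟨A, β, a1, a2, a3, a4, a5, a6⟩)
  refine ⟨c, C, hc, hC, hf', ?_⟩
  intro ψ hψ
  have hsel : ∀ l : ℝ, 0 < l → ∃ A b : ℝ, ((1 / C ≤ A ∧ A ≤ C) ∧ (Real.log 2 ≤ b ∧ b ≤ C)) ∧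
      (∀ L γ : ℝ, 0 < L →
        Tendsto (fun k => hh (1/2) ⌊L * ψ k⌋₊ ⌊l * ψ k⌋₊) atTop (𝓝 γ) →
        |γ / (A * Real.exp (-b * (L / l))) - 1| ≤ C * Real.exp (-c * (L / l))) ∧
      (∀ L L' γ γ' : ℝ, l < L → L < L' →
        Tendsto (fun k => hh (1/2) ⌊L * ψ k⌋₊ ⌊l * ψ k⌋₊) atTop (𝓝 γ) →
        Tendsto (fun k => hh (1/2) ⌊L' * ψ k⌋₊ ⌊l * ψ k⌋₊) atTop (𝓝 γ') →
        |Real.log γ' - Real.log γ + b * ((L' - L) / l)| ≤
          C * Real.exp (-c * (L / l)) * ((L' - L) / l)) := by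
    intro l hl
    obtain ⟨A, b, a1, a2, a3, a4, a5, a6⟩ := hS' (fun k => ⌊l * ψ k⌋₊) (sides hψ hl)
    have rat : ∀ {L : ℝ}, 0 < L → Tendsto (fun k => ((⌊L * ψ k⌋₊ : ℕ) : ℝ) / ((⌊l * ψ k⌋₊ : ℕ) : ℝ))
        atTop (𝓝 (L / l)) := by
      intro L hL
      simpa using ratio hψ hL hl 0 0
    refine ⟨A, b, ⟨⟨a1, a2⟩, ⟨a3, a4⟩⟩, ?_, ?_⟩
    · intro L γ hL hγ
      exact a5 (fun k => ⌊L * ψ k⌋₊) (L / l) γ (by positivity) (rat hL) hγ
    · intro L L' γ γ' hL hLL hγ hγ'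
      have L0 : 0 < L := hl.trans hL
      have L0' : 0 < L' := L0.trans hLL
      have p1 : 0 < γ := lim_pos (sides hψ hl) ((sides hψ L0).eventually_ge_atTop 1) (rat L0) hγ
      have p2 : 0 < γ' := lim_pos (sides hψ hl) ((sides hψ L0').eventually_ge_atTop 1)
        (rat L0') hγ'
      have := a6 (fun k => ⌊L * ψ k⌋₊) (fun k => ⌊L' * ψ k⌋₊) (L / l) (L' / l) γ γ'
        ((one_lt_div hl).mpr hL) ((div_lt_div_iff_of_pos_right hl).mpr hLL) (rat L0) (rat L0')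
        hγ hγ' p1 p2
      rw [← sub_div] at this
      exact this
  choose! A b hAb using hsel
  refine ⟨A, b, fun l hl => (hAb l hl).1, ?_, ?_, ?_⟩
  · intro L l γ hL hl hγ
    exact ⟨(hAb l hl).2.1 L γ hL hγ, (hAb L hL).2.1 l (1 - γ) hl (dual_lim hψ hL hl hγ)⟩
  · intro L L' l γ γ' hl hL hLL hγ hγ'
    exact (hAb l hl).2.2 L L' γ γ' hL hLL hγ hγ'
  · intro L l l' γ γ' hL hl hll hγ hγ'
    exact (hAb L hL).2.2 l l' (1 - γ) (1 - γ') hl hll (dual_lim hψ hL (hL.trans hl) hγ)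
      (dual_lim hψ hL ((hL.trans hl).trans hll) hγ')

end Pool.Agent.Y197.LR.Last3
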