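import Pool.Agent.Y197.LR.Top
import Pool.Agent.Y332.LR.DEC
import Pool.Agent.Y845.LR.RSW
import Pool.Agent.Y845.LR.GR
import Pool.Agent.Y903.LR.P1
import Pool.Agent.Y658.LR.P2
import Pool.Agent.Y550.LR.P3
import Pool.Agent.Y68.LR.Fac
import Pool.Agent.Y768.LR.STEP
import Pool.Agent.Y550.LR.Iter
import Pool.Agent.Y185.LR.CR
import Pool.Agent.Y185.LR.QEL
import Pool.Agent.Y681.LR.Ana

/-!
Project LR: assembly of the jobs.
-/

set_option autoImplicit false

namespace Pool.Agent.Y197.LR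

theorem a_RSW : S_RSW := Pool.Agent.Y845.LR.main
theorem a_GR : S_GR := Pool.Agent.Y845.LR.GR.main a_RSW
theorem a_TOP : S_TOP := Top.main
theorem a_DEC : S_DEC := Pool.Agent.Y332.LR.DEC.main a_TOP
theorem a_P1 : S_P1 := Pool.Agent.Y903.LR.main a_RSW
theorem a_P2 : S_P2 := Pool.Agent.Y658.LR.main
theorem a_P3 : S_P3 := Pool.Agent.Y550.LR.P3.main a_RSW
theorem a_FAC : S_FAC := Pool.Agent.Y68.LR.main a_DEC a_P1
theorem a_STEP : S_STEP := Pool.Agent.Y768.LR.main a_FAC a_P2 a_P3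
theorem a_ITER : S_ITER := Pool.Agent.Y550.LR.Iter.main a_STEP
theorem a_CR : S_CR := Pool.Agent.Y185.LR.CR.main a_ITER
theorem a_QEL : S_QEL := Pool.Agent.Y185.LR.QEL.main
theorem a_ANA : S_ANA := Pool.Agent.Y681.LR.Ana.main

end Pool.Agent.Y197.LR
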