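import Pool.Agent.Y197.LR.StmC

/-!
Project LR, differentiated form: proofs of the statements of real analysis.
-/

set_option autoImplicit false

namespace Pool.Agent.Y197.LR.Ana2

open Finset

theorem step_sum {f : ℕ → ℝ} {w m : ℕ} {E : ℝ}
    (h : ∀ i : ℕ, i < m → |f (w + i + 2) - 2 * f (w + i + 1) + f (w + i)| ≤ E) :
    ∀ i : ℕ, i ≤ m → |(f (w + i + 1) - f (w + i)) - (f (w + 1) - f w)| ≤ i * E := by
  intro i
  induction i with
  | zero => intro _; simp
  | succ i ih =>
    intro hi
    have h1 := ih (by omega)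
    have h2 := h i (by omega)
    have e1 : w + (i + 1) + 1 = w + i + 2 := by ring
    have e2 : w + (i + 1) = w + i + 1 := by ring
    rw [e1, e2]
    rw [abs_le] at h1 h2 ⊢
    push_cast
    constructor <;> linarith [h1.1, h1.2, h2.1, h2.2]

theorem tele {f : ℕ → ℝ} {w m : ℕ} {E : ℝ} (hE : 0 ≤ E)
    (h : ∀ i : ℕ, i < m → |f (w + i + 2) - 2 * f (w + i + 1) + f (w + i)| ≤ E) :
    ∀ i : ℕ, i ≤ m → |(f (w + i) - f w) - i * (f (w + 1) - f w)| ≤ i * (m * E) := by
  intro i
  induction i with
  | zero => intro _; simp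
  | succ i ih =>
    intro hi
    have h1 := ih (by omega)
    have h2 := step_sum h i (by omega)
    have h3 : (i:ℝ) * E ≤ m * E := mul_le_mul_of_nonneg_right (by exact_mod_cast (show i ≤ m by omega)) hE
    have e2 : w + (i + 1) = w + i + 1 := by ring
    rw [e2]
    rw [abs_le] at h1 h2 ⊢
    push_cast
    constructor <;> linarith [h1.1, h1.2, h2.1, h2.2]

theorem int : S_INT := by
  intro M c B hM hc hB
  refine ⟨2 * M + 2 * B, by positivity, ?_⟩
  intro h f hh hf hs w hw hhw
  have hpos : (0:ℝ) < h := by exact_mod_cast (show 0 < h by omega)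
  set t : ℝ := Real.exp (-(c / 2) * w / h) with ht
  have t0 : 0 < t := Real.exp_pos _
  have htt : Real.exp (-c * w / h) = t * t := by
    rw [ht, ← Real.exp_add]; congr 1; ring
  have t1 : t ≤ 1 := by
    rw [ht]; apply Real.exp_le_one_iff.mpr
    rw [neg_mul, neg_div]
    have : 0 ≤ c / 2 * w / h := by positivity
    linarith
  have fw := hf w hw
  rw [htt] at fw
  have later : ∀ j : ℕ, |f (w + j)| ≤ M * (t * t) := by
    intro j
    refine (hf (w + j) (by omega)).trans ?_
    rw [← htt]
    apply mul_le_mul_of_nonneg_left _ hM.le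
    apply Real.exp_le_exp.mpr
    rw [div_le_div_iff_of_pos_right hpos]
    push_cast
    nlinarith [(Nat.cast_nonneg j : (0:ℝ) ≤ j)]
  rcases le_or_gt (h * t) 1 with hcase | hcase
  · -- `t ≤ 1 / h`
    have h1 := later 1
    have h2 : |f (w + 1) - f w| ≤ 2 * M * (t * t) := by
      rw [abs_le] at fw h1 ⊢
      constructor <;> linarith [fw.1, fw.2, h1.1, h1.2]
    refine h2.trans ?_
    rw [le_div_iff₀ hpos]
    have h3 : t * (h * t) ≤ t * 1 := mul_le_mul_of_nonneg_left hcase t0.le
    nlinarith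
  · set m : ℕ := ⌈h * t⌉₊ with hm
    have m1 : h * t ≤ m := Nat.le_ceil _
    have m2 : (m:ℝ) < h * t + 1 := Nat.ceil_lt_add_one (by positivity)
    have mpos : (0:ℝ) < m := by linarith
    have h1 := tele (f := f) (w := w) (m := m) (E := B / (h:ℝ) ^ 2) (by positivity)
      (fun i _ => hs (w + i) (by omega) (by omega)) m le_rfl
    have h2 := later m
    have h3 : |(m:ℝ) * (f (w + 1) - f w)| ≤ 2 * M * (t * t) + m * (m * (B / (h:ℝ) ^ 2)) := by
      rw [abs_le] at h1 h2 fw ⊢
      constructor <;> linarith [h1.1, h1.2, h2.1, h2.2, fw.1, fw.2]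
    rw [abs_mul, abs_of_pos mpos] at h3
    have h4 : |f (w + 1) - f w| ≤ (2 * M * (t * t) + m * (m * (B / (h:ℝ) ^ 2))) / m := by
      rw [le_div_iff₀ mpos]; linarith
    refine h4.trans ?_
    rw [add_div]
    have h5 : 2 * M * (t * t) / m ≤ 2 * M * t / h := by
      rw [div_le_div_iff₀ mpos hpos]
      have : t * (h * t) ≤ t * m := mul_le_mul_of_nonneg_left m1 t0.le
      nlinarith
    have h6 : (m:ℝ) * (m * (B / (h:ℝ) ^ 2)) / m ≤ 2 * B * t / h := by
      have e : (m:ℝ) * (m * (B / (h:ℝ) ^ 2)) / m = m * B / (h:ℝ) ^ 2 := by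
        field_simp
      rw [e, div_le_div_iff₀ (by positivity) hpos]
      have m3 : (m:ℝ) ≤ 2 * (h * t) := by linarith
      have : (m:ℝ) * (B * h) ≤ 2 * (h * t) * (B * h) :=
        mul_le_mul_of_nonneg_right m3 (by positivity)
      nlinarith
    have e2 : (2 * M + 2 * B) * t / h = 2 * M * t / h + 2 * B * t / h := by ring
    rw [e2]
    exact add_le_add h5 h6

theorem abs_log_le {t κ : ℝ} (hκ : 0 < κ) (hκ1 : κ ≤ 1) (ht : κ ≤ t) :
    |Real.log t| ≤ |t - 1| / κ := by
  have t0 : 0 < t := lt_of_lt_of_le hκ ht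
  have h1 := Real.log_le_sub_one_of_pos t0
  have h2 := Real.log_le_sub_one_of_pos (inv_pos.mpr t0)
  rw [Real.log_inv] at h2
  have h3 : |t - 1| ≤ |t - 1| / κ := by
    rw [le_div_iff₀ hκ]
    nlinarith [abs_nonneg (t - 1)]
  have h4 : t⁻¹ - 1 ≤ |t - 1| / κ := by
    rw [le_div_iff₀ hκ]
    have e : t⁻¹ - 1 = (1 - t) / t := by field_simp
    rw [e]
    rcases le_or_gt t 1 with h | h
    · have : (1 - t) / t * κ ≤ (1 - t) / t * t := by
        apply mul_le_mul_of_nonneg_left ht
        apply div_nonneg (by linarith) t0.le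
      rw [div_mul_cancel₀ _ t0.ne'] at this
      rw [abs_sub_comm, abs_of_nonneg (by linarith)]
      exact this
    · have : (1 - t) / t * κ ≤ 0 := by
        apply mul_nonpos_of_nonpos_of_nonneg _ hκ.le
        apply div_nonpos_of_nonpos_of_nonneg (by linarith) t0.le
      linarith [abs_nonneg (t - 1)]
  rw [abs_le]
  have h5 := le_abs_self (t - 1)
  constructor <;> linarith

theorem lsd : S_LSD := by
  intro κ C hκ hC
  refine ⟨(C + C ^ 2 / κ) / (min κ 1), by positivity, ?_⟩
  intro h x y z hh hx hy hz hyx hzy k1 k2 d1 d2 d3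
  have hpos : (0:ℝ) < h := by exact_mod_cast (show 0 < h by omega)
  have e : Real.log z - 2 * Real.log y + Real.log x = Real.log ((z / y) * (x / y)) := by
    rw [Real.log_mul (by positivity) (by positivity), Real.log_div hz.ne' hy.ne',
      Real.log_div hx.ne' hy.ne']
    ring
  rw [e]
  have b1 : 1 ≤ x / y := by rw [le_div_iff₀ hy]; linarith
  have a1 : κ ≤ z / y := by rw [le_div_iff₀ hy]; exact k2
  have ab : κ ≤ (z / y) * (x / y) := by
    calc κ = κ * 1 := by ring
      _ ≤ (z / y) * (x / y) := mul_le_mul a1 b1 (by norm_num) (by positivity)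
  have m0 : 0 < min κ 1 := lt_min hκ one_pos
  refine (abs_log_le m0 (min_le_right _ _) ((min_le_left _ _).trans ab)).trans ?_
  have key : |(z / y) * (x / y) - 1| ≤ (C + C ^ 2 / κ) / (h:ℝ) ^ 2 := by
    have e2 : (z / y) * (x / y) - 1 = (z - 2 * y + x) / y + (z - y) / y * ((x - y) / y) := by
      field_simp
      ring
    rw [e2]
    have p1 : |(z - 2 * y + x) / y| ≤ C / (h:ℝ) ^ 2 := by
      rw [abs_div, abs_of_pos hy, div_le_div_iff₀ hy (by positivity)]
      have := d3
      rw [le_div_iff₀ (by positivity)] at this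
      linarith
    have p2 : |(z - y) / y| ≤ C / h := by
      rw [abs_div, abs_of_pos hy, abs_sub_comm, abs_of_nonneg (by linarith),
        div_le_div_iff₀ hy hpos]
      have := d2
      rw [le_div_iff₀ hpos] at this
      linarith
    have p3 : |(x - y) / y| ≤ C / (κ * h) := by
      rw [abs_div, abs_of_pos hy, abs_of_nonneg (by linarith), div_le_div_iff₀ hy (by positivity)]
      have h5 := d1
      rw [le_div_iff₀ hpos] at h5
      have h6 : C * (κ * x) ≤ C * y := mul_le_mul_of_nonneg_left k1 hC.le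
      calc (x - y) * (κ * h) = κ * ((x - y) * h) := by ring
        _ ≤ κ * (C * x) := mul_le_mul_of_nonneg_left h5 hκ.le
        _ = C * (κ * x) := by ring
        _ ≤ _ := h6
    refine (abs_add_le _ _).trans ?_
    rw [abs_mul]
    have p4 : |(z - y) / y| * |(x - y) / y| ≤ C / h * (C / (κ * h)) :=
      mul_le_mul p2 p3 (abs_nonneg _) (by positivity)
    calc |(z - 2 * y + x) / y| + |(z - y) / y| * |(x - y) / y|
        ≤ C / (h:ℝ) ^ 2 + C / h * (C / (κ * h)) := add_le_add p1 p4
      _ = _ := by field_simp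
  calc |(z / y) * (x / y) - 1| / (min κ 1) ≤ (C + C ^ 2 / κ) / (h:ℝ) ^ 2 / (min κ 1) :=
        div_le_div_of_nonneg_right key m0.le
    _ = _ := by rw [div_div, div_div, mul_comm]

theorem log : S_LOG := by
  intro κ c C hκ hκ1 hc hC
  obtain ⟨j, hj⟩ := exists_nat_ge (Real.log (2 * C) / c)
  obtain ⟨m, hm⟩ : ∃ m : ℝ, m = min (κ ^ (j + 1) / C) 1 := ⟨_, rfl⟩
  have m0 : 0 < m := by rw [hm]; positivity
  have m1 : m ≤ 1 := by rw [hm]; exact min_le_right _ _
  have m2 : m ≤ κ ^ (j + 1) / C := by rw [hm]; exact min_le_left _ _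
  refine ⟨2 * C / m, by positivity, ?_⟩
  intro n A β q hn A1 A2 b1 b2 q1 q2 q3 q4 hr w hw
  have npos : (0:ℝ) < n := by exact_mod_cast (show 0 < n by omega)
  have A0 : 0 < A := lt_of_lt_of_le (by positivity) A1
  have β0 : 0 ≤ β := le_trans (by positivity) b1
  obtain ⟨qp, qle⟩ := q1 w hw
  have hE := Real.exp_pos (-β * w)
  obtain ⟨t, ht⟩ : ∃ t : ℝ, t = q w / (A * Real.exp (-β * w)) := ⟨_, rfl⟩
  have t0 : 0 < t := by rw [ht]; positivity
  have hlog : Real.log (q w) - Real.log A + β * w = Real.log t := by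
    rw [ht, Real.log_div qp.ne' (by positivity), Real.log_mul A0.ne' hE.ne', Real.log_exp]
    ring
  rw [hlog]
  have h1 := hr w hw
  rw [← ht] at h1
  have hex := Real.exp_pos (-c * w / n)
  rcases le_or_gt (1/2) t with hc1 | hc1
  · have h2 := abs_log_le (show (0:ℝ) < 1/2 by norm_num) (by norm_num) hc1
    refine h2.trans ?_
    have h3 : |t - 1| / (1/2) ≤ 2 * C * Real.exp (-c * w / n) := by
      rw [div_le_iff₀ (by norm_num)]; linarith
    refine h3.trans ?_
    apply mul_le_mul_of_nonneg_right _ hex.le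
    rw [le_div_iff₀ m0]
    nlinarith
  · -- `w / n` is bounded
    have h2 : 1/2 < C * Real.exp (-c * w / n) := by
      rw [abs_sub_comm, abs_of_nonneg (by linarith)] at h1
      linarith
    have h3 : (w:ℝ) / n ≤ j := by
      have h4 : 1 < 2 * C * Real.exp (-c * w / n) := by linarith
      have h5 : 0 < Real.log (2 * C * Real.exp (-c * w / n)) := Real.log_pos h4
      rw [Real.log_mul (by positivity) hex.ne', Real.log_exp] at h5
      have h6 : c * (w / n) < Real.log (2 * C) := by
        have : -c * w / n = -(c * (w / n)) := by ring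
        rw [this] at h5
        linarith
      have h7 : (w:ℝ) / n < Real.log (2 * C) / c := by
        rw [lt_div_iff₀ hc]; linarith
      linarith
    have h8 : w ≤ j * n := by
      rw [div_le_iff₀ npos] at h3
      exact_mod_cast h3
    have h9 : κ ^ (j + 1) ≤ q w := by
      have g1 := q3 n le_rfl j
      have g2 := q2 n hn le_rfl
      have g3 := q4 w (n + j * n) hw (by omega)
      calc κ ^ (j + 1) = κ ^ j * κ := pow_succ _ _
        _ ≤ κ ^ j * q n := mul_le_mul_of_nonneg_left g2 (by positivity)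
        _ ≤ _ := g1.trans g3
    have h10 : m ≤ t := by
      refine m2.trans ?_
      rw [ht, div_le_div_iff₀ hC (by positivity)]
      have e1 : Real.exp (-β * w) ≤ 1 := by
        apply Real.exp_le_one_iff.mpr
        have : 0 ≤ β * w := by positivity
        linarith
      have e2 : A * Real.exp (-β * w) ≤ C * 1 := mul_le_mul A2 e1 hE.le hC.le
      calc κ ^ (j + 1) * (A * Real.exp (-β * w)) ≤ q w * (C * 1) :=
            mul_le_mul h9 e2 (by positivity) qp.le
        _ = q w * C := by ring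
    have h11 := abs_log_le m0 m1 h10
    refine h11.trans ?_
    rw [div_mul_eq_mul_div]
    apply div_le_div_of_nonneg_right _ m0.le
    nlinarith

end Pool.Agent.Y197.LR.Ana2
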