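import Pool.Agent.Y197.LR.All

/-!
Project LR: the exponential form of the connection probabilities across long rectangles.
-/

set_option autoImplicit false

namespace Pool.Agent.Y197.LR.Fin

open H974 Finset Filter Topology

/-- `log (1 + x) ≤ x` for `x ≥ 0`, in the form needed. -/
theorem log_one_add_le {x : ℝ} (hx : 0 ≤ x) : Real.log (1 + x) ≤ x := by
  have := Real.log_le_sub_one_of_pos (show (0:ℝ) < 1 + x by linarith)
  linarith

/-- The exponent: a power of `1 - d` is an exponential. -/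
theorem pow_le_exp {d : ℝ} (h0 : 0 < d) (h1 : d < 1) (n w k : ℕ) (hn : 1 ≤ n)
    (hk : w < n + (k + 2) * (2 * n + 2)) :
    (1 - d) ^ k ≤ (1 - d) ^ (-3 : ℝ) * Real.exp (-(-Real.log (1 - d) / 4) * w / n) := by
  have hd : 0 < 1 - d := by linarith
  have hl : Real.log (1 - d) < 0 := Real.log_neg hd (by linarith)
  have hn' : (0:ℝ) < n := by exact_mod_cast (show 0 < n by omega)
  have hn1 : (1:ℝ) ≤ n := by exact_mod_cast hn
  rw [← Real.rpow_natCast, Real.rpow_def_of_pos hd, Real.rpow_def_of_pos hd, ← Real.exp_add]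
  apply Real.exp_le_exp.mpr
  have e1 : -(-Real.log (1 - d) / 4) * w / n = Real.log (1 - d) * (w / (4 * n)) := by
    field_simp
  rw [e1, ← mul_add]
  apply mul_le_mul_of_nonpos_left _ hl.le
  have e2 : (w:ℝ) ≤ n + (k + 2) * (2 * n + 2) := by exact_mod_cast hk.le
  have e3 : (w:ℝ) / (4 * n) ≤ k + 3 := by
    rw [div_le_iff₀ (by linarith)]
    have : (k + 2 : ℝ) * (2 * n + 2) ≤ (k + 2) * (4 * n) :=
      mul_le_mul_of_nonneg_left (by linarith) (by positivity)
    nlinarith
  linarith

/-- Index type: nonempty sets of heights. -/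
abbrev I (n : ℕ) : Type := {T : Finset ℤ // T ⊆ Icc (0:ℤ) n ∧ T.Nonempty}

theorem expform : ∃ c D : ℝ, 0 < c ∧ 0 < D ∧ ∀ n : ℕ, 1 ≤ n →
    ∃ (α β : ℝ) (φ : I n → ℝ),
      (∀ o : I n, o.1 = Icc (0:ℤ) n → φ o = 0) ∧
      ∀ w : ℕ, 3 * n + 2 ≤ w → ∀ T S : I n,
        |Real.log (Q n w T.1 S.1) - (α + φ T + φ S - β * w)| ≤
          4 * (D * Real.exp (-c * w / n)) := by
  obtain ⟨d, hd0, hd1, hCR⟩ := a_CR
  have hd : 0 < 1 - d := by linarith
  have hl : Real.log (1 - d) < 0 := Real.log_neg hd (by linarith)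
  set c : ℝ := -Real.log (1 - d) / 4 with hc
  have hc0 : 0 < c := by rw [hc]; linarith
  set D : ℝ := (1 - d) ^ (-3 : ℝ) / d with hD
  have hD0 : 0 < D := by rw [hD]; positivity
  refine ⟨c, D, hc0, hD0, ?_⟩
  intro n hn
  have hn' : (0:ℝ) < n := by exact_mod_cast (show 0 < n by omega)
  have hnz : (1:ℤ) ≤ n := by exact_mod_cast hn
  set o : I n := ⟨Icc (0:ℤ) n, Finset.Subset.refl _, ⟨0, by rw [mem_Icc]; omega⟩⟩ with ho
  have Qpos : ∀ (w : ℕ) (T S : I n), 1 ≤ w → 0 < Q n w T.1 S.1 := by
    intro w T S hw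
    exact (a_QEL n w T.1 S.1 hnz (by exact_mod_cast hw) T.2.1 S.2.1).1 T.2.2 S.2.2
  obtain ⟨α, β, φ, h1, h2⟩ := a_ANA (I n) o (fun w T S => if w = 0 then 0 else
      Real.log (Q n w T.1 S.1)) (3 * n + 2) (fun w => D * Real.exp (-c * w / n)) (by
      have e1 : Tendsto (fun w : ℕ => -c * (w:ℝ) / n) atTop atBot := by
        have : (fun w : ℕ => -c * (w:ℝ) / n) = fun w : ℕ => (-c / n) * (w:ℝ) := by
          funext w; ring
        rw [this]
        exact Tendsto.const_mul_atTop_of_neg (div_neg_of_neg_of_pos (by linarith) hn')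
          tendsto_natCast_atTop_atTop
      have e2 := (Real.tendsto_exp_atBot.comp e1).const_mul D
      simpa using e2) (by
      intro x y hxy
      have : (x:ℝ) ≤ y := by exact_mod_cast hxy
      apply mul_le_mul_of_nonneg_left _ hD0.le
      apply Real.exp_le_exp.mpr
      rw [div_le_div_iff_of_pos_right hn']
      nlinarith) (by
      intro w T S
      split_ifs with h0
      · rfl
      · rw [(a_QEL n w T.1 S.1 hnz (by exact_mod_cast (show 1 ≤ w by omega)) T.2.1 S.2.1).2.1]) (by
      intro w s s' hw T T' S S'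
      rw [if_neg (by omega), if_neg (by omega), if_neg (by omega), if_neg (by omega)]
      -- the number of blocks
      set q : ℕ := (w - n) / (2 * n + 2) with hq
      have hq1 : q * (2 * n + 2) ≤ w - n := Nat.div_mul_le_self _ _
      have hq2 : w - n < (q + 1) * (2 * n + 2) := by
        rw [hq, Nat.add_one_mul]
        exact Nat.lt_div_mul_add (by omega)
      have hq3 : 1 ≤ q := by
        rw [hq, Nat.le_div_iff_mul_le (by omega)]; omega
      set k : ℕ := q - 1 with hk
      have hkq : q = k + 1 := by omega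
      have hwk : w < n + (k + 2) * (2 * n + 2) := by
        rw [hkq, show k + 1 + 1 = k + 2 by ring] at hq2
        omega
      have hpow := pow_le_exp hd0 hd1 n w k hn hwk
      set b : ℤ := (w:ℤ) - n - (k + 1) * N n with hb
      have hNn : N (n:ℤ) = 2 * n + 2 := rfl
      have hb0 : 0 ≤ b := by
        rw [hb, hNn]
        have : ((q * (2 * n + 2) : ℕ) : ℤ) ≤ ((w - n : ℕ) : ℤ) := by exact_mod_cast hq1
        rw [hkq] at this
        push_cast [Nat.cast_sub (show n ≤ w by omega)] at this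
        linarith
      have w1 : (n:ℤ) + (k + 1) * N n + b = w := by rw [hb]; ring
      have w2 : ((n:ℤ) + s) + (k + 1) * N n + (b + s') = ((w + s + s' : ℕ) : ℤ) := by
        push_cast; rw [hb]; ring
      have w3 : ((n:ℤ) + s) + (k + 1) * N n + b = ((w + s : ℕ) : ℤ) := by
        push_cast; rw [hb]; ring
      have w4 : (n:ℤ) + (k + 1) * N n + (b + s') = ((w + s' : ℕ) : ℤ) := by
        push_cast; rw [hb]; ring
      have k1 := hCR n n (n + s) b (b + s') k T.1 T'.1 S.1 S'.1 hnz le_rfl (by omega) hb0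
        (by omega) T.2.1 T'.2.1 S.2.1 S'.2.1 T.2.2 T'.2.2
      have k2 := hCR n (n + s) n b (b + s') k T'.1 T.1 S.1 S'.1 hnz (by omega) le_rfl hb0
        (by omega) T'.2.1 T.2.1 S.2.1 S'.2.1 T'.2.2 T.2.2
      rw [w1, w2, w3, w4] at k1 k2
      have p1 := Qpos w T S (by omega)
      have p2 := Qpos (w + s + s') T' S' (by omega)
      have p3 := Qpos (w + s) T' S (by omega)
      have p4 := Qpos (w + s') T S' (by omega)
      have hρ : 0 < 1 + (1 - d) ^ k / d := by positivity
      have l1 := Real.log_le_log (mul_pos p1 p2) k1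
      have l2 := Real.log_le_log (mul_pos p3 p4) k2
      rw [Real.log_mul p1.ne' p2.ne', Real.log_mul hρ.ne' (mul_pos p3 p4).ne',
        Real.log_mul p3.ne' p4.ne'] at l1
      rw [Real.log_mul p3.ne' p4.ne', Real.log_mul hρ.ne' (mul_pos p1 p2).ne',
        Real.log_mul p1.ne' p2.ne'] at l2
      have l3 : Real.log (1 + (1 - d) ^ k / d) ≤ (1 - d) ^ k / d :=
        log_one_add_le (by positivity)
      have l4 : (1 - d) ^ k / d ≤ D * Real.exp (-c * w / n) := by
        rw [hD, div_mul_eq_mul_div, div_le_div_iff_of_pos_right hd0]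
        have : -c * (w:ℝ) / n = -(-Real.log (1 - d) / 4) * w / n := by rw [hc]
        rw [this]
        exact hpow
      rw [abs_le]
      constructor <;> linarith)
  refine ⟨α, β, φ, ?_, ?_⟩
  · intro o' ho'
    have : o' = o := Subtype.ext (by rw [ho', ho])
    rw [this]
    exact h1
  · intro w hw T S
    have := h2 w hw T S
    rw [if_neg (by omega)] at this
    exact this

end Pool.Agent.Y197.LR.Fin
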