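import Mathlib

/-!
Project LR, last part: two statements of real analysis.
-/

set_option autoImplicit false

namespace Pool.Agent.Y197.LR

open Filter

/-- From the logarithmic form of the connection probabilities to the final form. The height is
`n`, the constants of the hypotheses are uniform in `n`. -/
def S_BND : Prop := ∀ (κ c D : ℝ), 0 < κ → 0 < c → 0 < D → ∃ c' C : ℝ, 0 < c' ∧ 0 < C ∧
  ∀ (n : ℕ), 1 ≤ n → ∀ (ι : Type) (o : ι) (q : ℕ → ι → ι → ℝ) (α β : ℝ) (φ : ι → ℝ),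
  φ o = 0 →
  (∀ w : ℕ, 1 ≤ w → ∀ T S : ι, 0 < q w T S ∧ q w T S ≤ q w o S ∧ q w T S = q w S T) →
  (∀ w : ℕ, 1 ≤ w → q w o o ≤ 1) →
  (∀ w : ℕ, 1 ≤ w → w ≤ 4 * n + 4 → κ ≤ q w o o) →
  (∀ w : ℕ, 1 ≤ w → q (w + 2 * n) o o ≤ 1 / 2 * q w o o) →
  (∀ w : ℕ, n ≤ w → κ * q w o o ≤ q (w + n) o o) →
  (∀ w : ℕ, 3 * n + 2 ≤ w → ∀ T S : ι,
    |Real.log (q w T S) - (α + φ T + φ S - β * w)| ≤ 4 * (D * Real.exp (-c * w / n))) →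
  ∃ (A : ℝ) (Φ : ι → ℝ), 1 / C ≤ A ∧ A ≤ C ∧ c' / n ≤ β ∧ β ≤ C / n ∧ Φ o = 1 ∧
    (∀ T, 0 < Φ T ∧ Φ T ≤ 1) ∧
    (∀ w : ℕ, 1 ≤ w →
      |q w o o / (A * Real.exp (-β * w)) - 1| ≤ C * Real.exp (-c' * w / n)) ∧
    (∀ w : ℕ, 3 * n + 2 ≤ w → ∀ T S : ι,
      |q w T S / (A * Φ T * Φ S * Real.exp (-β * w)) - 1| ≤ C * Real.exp (-c' * w / n))

/-- Limits of the crossing probabilities along sequences of heights `u k → ∞`: there is one pair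
`(A, b)` for all sequences of widths `v k` with `v k / u k → λ`. -/
def S_SUB : Prop := ∀ (c C : ℝ) (q : ℕ → ℕ → ℝ), 0 < c → 0 < C →
  (∀ n : ℕ, 1 ≤ n → ∃ A β : ℝ, 1 / C ≤ A ∧ A ≤ C ∧ c / n ≤ β ∧ β ≤ C / n ∧
    ∀ w : ℕ, 1 ≤ w →
      |q w n / (A * Real.exp (-β * w)) - 1| ≤ C * Real.exp (-c * w / n)) →
  ∀ u : ℕ → ℕ, Tendsto u atTop atTop → ∃ A b : ℝ, 1 / C ≤ A ∧ A ≤ C ∧ c ≤ b ∧ b ≤ C ∧
    ∀ (v : ℕ → ℕ) (l γ : ℝ), 0 < l → Tendsto (fun k => (v k : ℝ) / u k) atTop (nhds l) →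
      Tendsto (fun k => q (v k) (u k)) atTop (nhds γ) →
      |γ / (A * Real.exp (-b * l)) - 1| ≤ C * Real.exp (-c * l)

end Pool.Agent.Y197.LR
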