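import Pool.Agent.Y197.LR.Fin
import Pool.Agent.Y197.LR.StmB
import Pool.Agent.W424.AR.Bdd

/-!
Project LR: the final forms.
-/

set_option autoImplicit false

namespace Pool.Agent.Y197.LR.Last

open H974 Finset Filter Topology Pool.Agent.Y197.LR.Fin

theorem finite (hB : S_BND) : ∃ c C : ℝ, 0 < c ∧ 0 < C ∧ ∀ n : ℕ, 1 ≤ n →
    ∃ (A β : ℝ) (Φ : Finset ℤ → ℝ), (1 / C ≤ A ∧ A ≤ C) ∧ (c / n ≤ β ∧ β ≤ C / n) ∧
      Φ (Icc (0:ℤ) n) = 1 ∧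
      (∀ T : Finset ℤ, T ⊆ Icc (0:ℤ) n → T.Nonempty → 0 < Φ T ∧ Φ T ≤ 1) ∧
      (∀ w : ℕ, 1 ≤ w →
        |hh (1/2) w n / (A * Real.exp (-β * w)) - 1| ≤ C * Real.exp (-c * w / n)) ∧
      (∀ w : ℕ, 3 * n + 2 ≤ w → ∀ T S : Finset ℤ, T ⊆ Icc (0:ℤ) n → T.Nonempty →
        S ⊆ Icc (0:ℤ) n → S.Nonempty →
        |Q n w T S / (A * Φ T * Φ S * Real.exp (-β * w)) - 1| ≤
          C * Real.exp (-c * w / n)) := by
  obtain ⟨κ, hκ, hκ1, g1, g2, g3⟩ := a_GR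
  obtain ⟨c, D, hc, hD, he⟩ := Fin.expform
  obtain ⟨c', C, hc', hC, hb⟩ := hB κ c D hκ hc hD
  refine ⟨c', C, hc', hC, ?_⟩
  intro n hn
  have hnz : (1:ℤ) ≤ n := by exact_mod_cast hn
  obtain ⟨α, β, φ, h1, h2⟩ := he n hn
  obtain ⟨o, ho⟩ : ∃ o : I n, o.1 = Icc (0:ℤ) n :=
    ⟨⟨Icc (0:ℤ) n, Finset.Subset.refl _, ⟨0, by rw [mem_Icc]; omega⟩⟩, rfl⟩
  have full : ∀ w : ℕ, 1 ≤ w → Q n w o.1 o.1 = hh (1/2) w n := by
    intro w hw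
    rw [ho]
    exact (a_QEL n w _ _ hnz (by exact_mod_cast hw) (Finset.Subset.refl _)
      (Finset.Subset.refl _)).2.2.2
  obtain ⟨A, Φ, a1, a2, a3, a4, a5, a6, a7, a8⟩ := hb n hn (I n) o
    (fun w T S => Q n w T.1 S.1) α β φ (h1 o ho)
    (by
      intro w hw T S
      obtain ⟨b1, b2, b3, -⟩ := a_QEL n w T.1 S.1 hnz (by exact_mod_cast hw) T.2.1 S.2.1
      exact ⟨b1 T.2.2 S.2.2, by rw [ho]; exact b3, b2⟩)
    (by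
      intro w hw
      rw [full w hw]
      exact hh_le_one (by norm_num) (by norm_num) _ _)
    (by
      intro w hw hw2
      rw [full w hw]
      exact g1 n w hnz (by exact_mod_cast hw) (by exact_mod_cast hw2))
    (by
      intro w hw
      rw [full w hw, full (w + 2 * n) (by omega)]
      have := g2 n w hnz (by exact_mod_cast hw)
      exact_mod_cast this)
    (by
      intro w hw
      rw [full w (by omega), full (w + n) (by omega)]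
      have := g3 n w hnz (by exact_mod_cast hw)
      exact_mod_cast this)
    h2
  classical
  refine ⟨A, β, fun T => if h : T ⊆ Icc (0:ℤ) n ∧ T.Nonempty then Φ ⟨T, h⟩ else 1, ⟨a1, a2⟩,
    ⟨a3, a4⟩, ?_, ?_, ?_, ?_⟩
  · simp only
    split_ifs with h
    · have : (⟨Icc (0:ℤ) n, h⟩ : I n) = o := Subtype.ext ho.symm
      rw [this]
      exact a5
    · rfl
  · intro T h3 h4
    simp only
    rw [dif_pos ⟨h3, h4⟩]
    exact a6 _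
  · intro w hw
    have := a7 w hw
    rwa [full w hw] at this
  · intro w hw T S h3 h4 h5 h6
    simp only
    rw [dif_pos ⟨h3, h4⟩, dif_pos ⟨h5, h6⟩]
    exact a8 w hw ⟨T, h3, h4⟩ ⟨S, h5, h6⟩

/-- The ratio of two sides `⌊L n⌋ / ⌊l n⌋` tends to `L / l`. -/
theorem ratio {ψ : ℕ → ℕ} (hψ : Tendsto ψ atTop atTop) {L l : ℝ} (hL : 0 < L) (hl : 0 < l)
    (p q : ℝ) : Tendsto (fun k => ((⌊L * ψ k⌋₊ : ℝ) + p) / ((⌊l * ψ k⌋₊ : ℝ) + q)) atTop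
      (𝓝 (L / l)) := by
  have h0 : Tendsto (fun k => (ψ k : ℝ)) atTop atTop := tendsto_natCast_atTop_atTop.comp hψ
  have h1 : ∀ {x : ℝ} (r : ℝ), 0 < x → Tendsto (fun k => ((⌊x * ψ k⌋₊ : ℝ) + r) / ψ k) atTop
      (𝓝 x) := by
    intro x r hx
    have h2 := (tendsto_nat_floor_mul_div_atTop hx.le).comp h0
    have h3 : Tendsto (fun k => r / (ψ k : ℝ)) atTop (𝓝 0) := h0.const_div_atTop r
    have h4 := h2.add h3
    rw [add_zero] at h4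
    refine h4.congr ?_
    intro k
    simp only [Function.comp]
    rw [add_div]
  have h5 := (h1 p hL).div (h1 q hl) hl.ne'
  refine h5.congr' ?_
  filter_upwards [h0.eventually_gt_atTop 0] with k hk
  simp only [Pi.div_apply]
  rw [div_div_div_cancel_right₀ hk.ne']

theorem sides {ψ : ℕ → ℕ} (hψ : Tendsto ψ atTop atTop) {L : ℝ} (hL : 0 < L) :
    Tendsto (fun k => ⌊L * ψ k⌋₊) atTop atTop := by
  have h0 : Tendsto (fun k => (ψ k : ℝ)) atTop atTop := tendsto_natCast_atTop_atTop.comp hψ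
  exact tendsto_nat_floor_atTop.comp (h0.const_mul_atTop hL)

theorem final (hB : S_BND) (hS : S_SUB) : ∃ c C : ℝ, 0 < c ∧ 0 < C ∧
    (∀ n : ℕ, 1 ≤ n →
      ∃ (A β : ℝ) (Φ : Finset ℤ → ℝ), (1 / C ≤ A ∧ A ≤ C) ∧ (c / n ≤ β ∧ β ≤ C / n) ∧
      Φ (Icc (0:ℤ) n) = 1 ∧
      (∀ T : Finset ℤ, T ⊆ Icc (0:ℤ) n → T.Nonempty → 0 < Φ T ∧ Φ T ≤ 1) ∧
      (∀ w : ℕ, 1 ≤ w →
        |hh (1/2) w n / (A * Real.exp (-β * w)) - 1| ≤ C * Real.exp (-c * w / n)) ∧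
      (∀ w : ℕ, 3 * n + 2 ≤ w → ∀ T S : Finset ℤ, T ⊆ Icc (0:ℤ) n → T.Nonempty →
        S ⊆ Icc (0:ℤ) n → S.Nonempty →
        |Q n w T S / (A * Φ T * Φ S * Real.exp (-β * w)) - 1| ≤
          C * Real.exp (-c * w / n))) ∧
    (∀ ψ : ℕ → ℕ, Tendsto ψ atTop atTop →
      (∀ l : ℝ, 0 < l → ∃ A b : ℝ, (1 / C ≤ A ∧ A ≤ C) ∧ (c ≤ b ∧ b ≤ C) ∧ ∀ L γ : ℝ, 0 < L →
        Tendsto (fun k => hh (1/2) ⌊L * ψ k⌋₊ ⌊l * ψ k⌋₊) atTop (𝓝 γ) →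
        |γ / (A * Real.exp (-b * (L / l))) - 1| ≤ C * Real.exp (-c * (L / l))) ∧
      (∀ L : ℝ, 0 < L → ∃ A b : ℝ, (1 / C ≤ A ∧ A ≤ C) ∧ (c ≤ b ∧ b ≤ C) ∧ ∀ l γ : ℝ, 0 < l →
        Tendsto (fun k => hh (1/2) ⌊L * ψ k⌋₊ ⌊l * ψ k⌋₊) atTop (𝓝 γ) →
        |(1 - γ) / (A * Real.exp (-b * (l / L))) - 1| ≤ C * Real.exp (-c * (l / L)))) := by
  obtain ⟨c, C, hc, hC, hf⟩ := finite hB
  have hS' := hS c C (fun w n => hh (1/2) w n) hc hC (by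
    intro n hn
    obtain ⟨A, β, Φ, ⟨a1, a2⟩, ⟨a3, a4⟩, -, -, a5, -⟩ := hf n hn
    exact ⟨A, β, a1, a2, a3, a4, a5⟩)
  refine ⟨c, C, hc, hC, hf, ?_⟩
  intro ψ hψ
  constructor
  · intro l hl
    obtain ⟨A, b, a1, a2, a3, a4, a5⟩ := hS' (fun k => ⌊l * ψ k⌋₊) (sides hψ hl)
    refine ⟨A, b, ⟨a1, a2⟩, ⟨a3, a4⟩, ?_⟩
    intro L γ hL hγ
    refine a5 (fun k => ⌊L * ψ k⌋₊) (L / l) γ (by positivity) ?_ hγ
    simpa using ratio hψ hL hl 0 0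
  · intro L hL
    obtain ⟨A, b, a1, a2, a3, a4, a5⟩ := hS' (fun k => ⌊L * ψ k⌋₊ - 1) (by
      exact (tendsto_sub_atTop_nat 1).comp (sides hψ hL))
    refine ⟨A, b, ⟨a1, a2⟩, ⟨a3, a4⟩, ?_⟩
    intro l γ hl hγ
    have hev : ∀ᶠ k : ℕ in atTop, 2 ≤ ⌊L * ψ k⌋₊ := (sides hψ hL).eventually_ge_atTop 2
    refine a5 (fun k => ⌊l * ψ k⌋₊ + 1) (l / L) (1 - γ) (by positivity) ?_ ?_
    · refine (ratio hψ hl hL 1 (-1)).congr' ?_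
      filter_upwards [hev] with k hk
      push_cast [Nat.cast_sub (show 1 ≤ ⌊L * ψ k⌋₊ by omega)]
      rfl
    · refine (tendsto_const_nhds.sub hγ).congr' ?_
      filter_upwards [hev] with k hk
      rw [Pool.Agent.W424.AR.dualhalf (w := (⌊L * ψ k⌋₊ : ℤ)) (h := (⌊l * ψ k⌋₊ : ℤ)) (by omega) (by omega)]
      push_cast [Nat.cast_sub (show 1 ≤ ⌊L * ψ k⌋₊ by omega)]
      rfl

end Pool.Agent.Y197.LR.Last
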