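import Pool.Agent.Y197.LR.Last
import Pool.Agent.Y197.LR.Ana2
import Pool.Agent.Y197.SD.Fin

/-!
Project LR: the final forms, with the increments.
-/

set_option autoImplicit false

namespace Pool.Agent.Y197.LR.Last2

open H974 Finset Filter Topology Pool.Agent.Y197.LR.Fin Pool.Agent.Y197.LR.Last

theorem hh_pos {n w : ℕ} (hn : 1 ≤ n) (hw : 1 ≤ w) : 0 < hh (1/2) w n := by
  have hnz : (1:ℤ) ≤ n := by exact_mod_cast hn
  have h := a_QEL n w (Icc (0:ℤ) n) (Icc (0:ℤ) n) hnz (by exact_mod_cast hw)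
    (Finset.Subset.refl _) (Finset.Subset.refl _)
  have hne : (Icc (0:ℤ) n).Nonempty := ⟨0, by rw [mem_Icc]; omega⟩
  have h1 := h.1 hne hne
  rwa [h.2.2.2] at h1

theorem finite2 (hB : S_BND) : ∃ c C : ℝ, 0 < c ∧ 0 < C ∧ ∀ n : ℕ, 1 ≤ n →
    ∃ (A β : ℝ) (Φ : Finset ℤ → ℝ), (1 / C ≤ A ∧ A ≤ C) ∧ (c / n ≤ β ∧ β ≤ C / n) ∧
      Φ (Icc (0:ℤ) n) = 1 ∧
      (∀ T : Finset ℤ, T ⊆ Icc (0:ℤ) n → T.Nonempty → 0 < Φ T ∧ Φ T ≤ 1) ∧
      (∀ w : ℕ, 1 ≤ w →
        |hh (1/2) w n / (A * Real.exp (-β * w)) - 1| ≤ C * Real.exp (-c * w / n)) ∧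
      (∀ w : ℕ, 3 * n + 2 ≤ w → ∀ T S : Finset ℤ, T ⊆ Icc (0:ℤ) n → T.Nonempty →
        S ⊆ Icc (0:ℤ) n → S.Nonempty →
        |Q n w T S / (A * Φ T * Φ S * Real.exp (-β * w)) - 1| ≤
          C * Real.exp (-c * w / n)) ∧
      (∀ w : ℕ, n ≤ w →
        |Real.log (hh (1/2) (w + 1 : ℕ) n) - Real.log (hh (1/2) w n) + β| ≤
          C * Real.exp (-c * w / n) / n) := by
  obtain ⟨c1, C1, hc1, hC1, hf⟩ := finite hB
  obtain ⟨κ, hκ, hκ1, g1, g2, g3⟩ := a_GR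
  obtain ⟨M, hM, hlog⟩ := Ana2.log κ c1 C1 hκ hκ1 hc1 hC1
  obtain ⟨C2, hC2, o2⟩ := Pool.Agent.Y197.SD.sdW 1 le_rfl
  obtain ⟨c3, C3, hc3, hC3, o3⟩ := Pool.Agent.W424.AR.order 1 le_rfl
  obtain ⟨B, hB0, hlsd⟩ := Ana2.lsd κ (max C2 C3) hκ (lt_max_of_lt_left hC2)
  obtain ⟨C4, hC4, hint⟩ := Ana2.int M c1 B hM hc1 hB0
  obtain ⟨C, hC⟩ : ∃ C : ℝ, C = max C1 C4 := ⟨_, rfl⟩
  have k1 : C1 ≤ C := by rw [hC]; exact le_max_left _ _
  have k4 : C4 ≤ C := by rw [hC]; exact le_max_right _ _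
  have hC0 : 0 < C := lt_of_lt_of_le hC1 k1
  refine ⟨c1 / 2, C, by positivity, hC0, ?_⟩
  intro n hn
  have hnz : (1:ℤ) ≤ n := by exact_mod_cast hn
  have npos : (0:ℝ) < n := by exact_mod_cast (show 0 < n by omega)
  obtain ⟨A, β, Φ, ⟨a1, a2⟩, ⟨a3, a4⟩, a5, a6, a7, a8⟩ := hf n hn
  have hexp : ∀ w : ℕ, C1 * Real.exp (-c1 * w / n) ≤ C * Real.exp (-(c1 / 2) * w / n) := by
    intro w
    apply mul_le_mul k1 _ (Real.exp_pos _).le hC0.le
    apply Real.exp_le_exp.mpr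
    rw [div_le_div_iff_of_pos_right npos]
    have : 0 ≤ c1 / 2 * w := by positivity
    linarith
  refine ⟨A, β, Φ, ⟨?_, a2.trans k1⟩, ⟨?_, ?_⟩, a5, a6, ?_, ?_, ?_⟩
  · refine le_trans ?_ a1
    exact one_div_le_one_div_of_le hC1 k1
  · refine le_trans ?_ a3
    exact div_le_div_of_nonneg_right (by linarith) npos.le
  · exact a4.trans (div_le_div_of_nonneg_right k1 npos.le)
  · intro w hw
    exact (a7 w hw).trans (hexp w)
  · intro w hw T S h1 h2 h3 h4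
    exact (a8 w hw T S h1 h2 h3 h4).trans (hexp w)
  · intro w hw
    have hgrow : ∀ w : ℕ, n ≤ w → ∀ j : ℕ, κ ^ j * hh (1/2) w n ≤ hh (1/2) (w + j * n : ℕ) n := by
      intro w hw j
      induction j with
      | zero => simp
      | succ j ih =>
        have h4 := g3 n (w + j * n : ℕ) hnz (by
          have : n ≤ w + j * n := le_trans hw (Nat.le_add_right _ _)
          exact_mod_cast this)
        have e : ((w + (j + 1) * n : ℕ) : ℤ) = ((w + j * n : ℕ) : ℤ) + n := by push_cast; ring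
        rw [e, pow_succ]
        calc κ ^ j * κ * hh (1/2) w n = κ * (κ ^ j * hh (1/2) w n) := by ring
          _ ≤ κ * hh (1/2) (w + j * n : ℕ) n := mul_le_mul_of_nonneg_left ih hκ.le
          _ ≤ _ := h4
    have hmono : ∀ w w' : ℕ, 1 ≤ w → w ≤ w' → hh (1/2) w' n ≤ hh (1/2) w n := by
      intro w w' hw hww
      exact hh_mono (by norm_num) (by norm_num) (by omega) (by exact_mod_cast hww) le_rfl
    have hl := hlog n A β (fun w => hh (1/2) w n) hn a1 a2 a3 a4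
      (fun w hw => ⟨hh_pos hn hw, (Pool.Agent.Y197.SD.hh01 _ _).2⟩)
      (fun w hw hwn => g1 n w hnz (by exact_mod_cast hw) (by omega))
      hgrow hmono a7
    have hi := hint n (fun w => Real.log (hh (1/2) w n) - Real.log A + β * w) hn hl
      (by
        intro w hw1 hwn
        have p0 := hh_pos (n := n) (w := w) hn hw1
        have p1 := hh_pos (n := n) (w := w + 1) hn (by omega)
        have p2 := hh_pos (n := n) (w := w + 2) hn (by omega)
        have e1 : κ * hh (1/2) w n ≤ hh (1/2) (w + 1 : ℕ) n := by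
          have := hgrow w hwn 1
          rw [pow_one, one_mul] at this
          exact this.trans (hmono (w + 1) (w + n) (by omega) (by omega))
        have e2 : κ * hh (1/2) (w + 1 : ℕ) n ≤ hh (1/2) (w + 2 : ℕ) n := by
          have := hgrow (w + 1) (by omega) 1
          rw [pow_one, one_mul] at this
          exact this.trans (hmono (w + 2) (w + 1 + n) (by omega) (by omega))
        have d1 := (o3 w n (by exact_mod_cast hw1) hnz (by push_cast; omega)).2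
        have d2 := (o3 (w + 1) n (by omega) hnz (by push_cast; omega)).2
        have d3 := o2 (w + 1) n (by omega) hnz (by push_cast; omega)
        unfold Pool.Agent.W424.AR.DD at d1 d2
        have c1' : ((w + 1 : ℕ) : ℤ) = (w:ℤ) + 1 := by push_cast; ring
        have c2' : ((w + 2 : ℕ) : ℤ) = (w:ℤ) + 2 := by push_cast; ring
        have c3' : (w:ℤ) + 1 + 1 = (w:ℤ) + 2 := by ring
        have c4' : (w:ℤ) + 1 - 1 = (w:ℤ) := by ring
        rw [c3'] at d2 d3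
        rw [c4'] at d3
        have m1 := le_max_left C2 C3
        have m2 := le_max_right C2 C3
        rw [c1'] at e1 e2 p1
        rw [c2'] at e2 p2
        have key := hlsd n (hh (1/2) w n) (hh (1/2) ((w:ℤ) + 1) n) (hh (1/2) ((w:ℤ) + 2) n) hn
          p0 p1 p2
          (by have := hmono w (w + 1) hw1 (by omega); rwa [c1'] at this)
          (by have := hmono (w + 1) (w + 2) (by omega) (by omega); rwa [c1', c2'] at this)
          e1 e2
          (by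
            refine d1.trans ?_
            push_cast
            exact div_le_div_of_nonneg_right (mul_le_mul_of_nonneg_right m2 p0.le) npos.le)
          (by
            refine d2.trans ?_
            push_cast
            exact div_le_div_of_nonneg_right (mul_le_mul_of_nonneg_right m2 p1.le) npos.le)
          (by
            refine d3.trans ?_
            push_cast
            exact div_le_div_of_nonneg_right (mul_le_mul_of_nonneg_right m1 p1.le)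
              (by positivity))
        have e5 : Real.log (hh (1/2) (w + 2 : ℕ) n) - Real.log A + β * ((w + 2 : ℕ) : ℝ) -
            2 * (Real.log (hh (1/2) (w + 1 : ℕ) n) - Real.log A + β * ((w + 1 : ℕ) : ℝ)) +
            (Real.log (hh (1/2) w n) - Real.log A + β * w) =
            Real.log (hh (1/2) ((w:ℤ) + 2) n) - 2 * Real.log (hh (1/2) ((w:ℤ) + 1) n) +
              Real.log (hh (1/2) w n) := by
          rw [c1', c2']
          push_cast
          ring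
        rw [e5]
        exact key)
      w (by omega) hw
    have e6 : Real.log (hh (1/2) (w + 1 : ℕ) n) - Real.log A + β * ((w + 1 : ℕ) : ℝ) -
        (Real.log (hh (1/2) w n) - Real.log A + β * w) =
        Real.log (hh (1/2) (w + 1 : ℕ) n) - Real.log (hh (1/2) w n) + β := by
      push_cast
      ring
    rw [e6] at hi
    refine hi.trans ?_
    apply div_le_div_of_nonneg_right _ npos.le
    exact mul_le_mul_of_nonneg_right k4 (Real.exp_pos _).le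

/-- Limits of crossing probabilities are positive. -/
theorem lim_pos {u v : ℕ → ℕ} {l γ : ℝ} (hu : Tendsto u atTop atTop)
    (hv : ∀ᶠ k in atTop, 1 ≤ v k) (hl : Tendsto (fun k => (v k : ℝ) / u k) atTop (𝓝 l))
    (hγ : Tendsto (fun k => hh (1/2) (v k) (u k)) atTop (𝓝 γ)) : 0 < γ := by
  obtain ⟨K, hK⟩ := exists_nat_ge (l + 1)
  obtain ⟨c, hc, -, hr⟩ := Pool.Agent.W424.AR.rsw (K + 1) (by omega)
  refine lt_of_lt_of_le hc (ge_of_tendsto hγ ?_)
  filter_upwards [hu.eventually_ge_atTop 1, hv, hl.eventually (gt_mem_nhds (show l < l + 1 by linarith))]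
    with k h1 h2 h3
  apply hr _ _ (by exact_mod_cast h2) (by exact_mod_cast h1)
  have h4 : (0:ℝ) < u k := by exact_mod_cast (show 0 < u k by omega)
  rw [div_lt_iff₀ h4] at h3
  have h5 : (v k : ℝ) ≤ ((K + 1 : ℕ) : ℝ) * u k := by
    push_cast
    nlinarith
  exact_mod_cast h5

theorem final2 (hB : S_BND) (hS : S_SUB2) : ∃ c C : ℝ, 0 < c ∧ 0 < C ∧
    (∀ n : ℕ, 1 ≤ n →
      ∃ (A β : ℝ) (Φ : Finset ℤ → ℝ), (1 / C ≤ A ∧ A ≤ C) ∧ (c / n ≤ β ∧ β ≤ C / n) ∧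
      Φ (Icc (0:ℤ) n) = 1 ∧
      (∀ T : Finset ℤ, T ⊆ Icc (0:ℤ) n → T.Nonempty → 0 < Φ T ∧ Φ T ≤ 1) ∧
      (∀ w : ℕ, 1 ≤ w →
        |hh (1/2) w n / (A * Real.exp (-β * w)) - 1| ≤ C * Real.exp (-c * w / n)) ∧
      (∀ w : ℕ, 3 * n + 2 ≤ w → ∀ T S : Finset ℤ, T ⊆ Icc (0:ℤ) n → T.Nonempty →
        S ⊆ Icc (0:ℤ) n → S.Nonempty →
        |Q n w T S / (A * Φ T * Φ S * Real.exp (-β * w)) - 1| ≤
          C * Real.exp (-c * w / n)) ∧
      (∀ w : ℕ, n ≤ w →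
        |Real.log (hh (1/2) (w + 1 : ℕ) n) - Real.log (hh (1/2) w n) + β| ≤
          C * Real.exp (-c * w / n) / n)) ∧
    (∀ ψ : ℕ → ℕ, Tendsto ψ atTop atTop →
      (∀ l : ℝ, 0 < l → ∃ A b : ℝ, (1 / C ≤ A ∧ A ≤ C) ∧ (c ≤ b ∧ b ≤ C) ∧
        (∀ L γ : ℝ, 0 < L →
          Tendsto (fun k => hh (1/2) ⌊L * ψ k⌋₊ ⌊l * ψ k⌋₊) atTop (𝓝 γ) →
          |γ / (A * Real.exp (-b * (L / l))) - 1| ≤ C * Real.exp (-c * (L / l))) ∧
        (∀ L L' γ γ' : ℝ, l < L → L < L' →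
          Tendsto (fun k => hh (1/2) ⌊L * ψ k⌋₊ ⌊l * ψ k⌋₊) atTop (𝓝 γ) →
          Tendsto (fun k => hh (1/2) ⌊L' * ψ k⌋₊ ⌊l * ψ k⌋₊) atTop (𝓝 γ') →
          |Real.log γ' - Real.log γ + b * ((L' - L) / l)| ≤
            C * Real.exp (-c * (L / l)) * ((L' - L) / l))) ∧
      (∀ L : ℝ, 0 < L → ∃ A b : ℝ, (1 / C ≤ A ∧ A ≤ C) ∧ (c ≤ b ∧ b ≤ C) ∧
        (∀ l γ : ℝ, 0 < l →
          Tendsto (fun k => hh (1/2) ⌊L * ψ k⌋₊ ⌊l * ψ k⌋₊) atTop (𝓝 γ) →
          |(1 - γ) / (A * Real.exp (-b * (l / L))) - 1| ≤ C * Real.exp (-c * (l / L))) ∧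
        (∀ l l' γ γ' : ℝ, L < l → l < l' →
          Tendsto (fun k => hh (1/2) ⌊L * ψ k⌋₊ ⌊l * ψ k⌋₊) atTop (𝓝 γ) →
          Tendsto (fun k => hh (1/2) ⌊L * ψ k⌋₊ ⌊l' * ψ k⌋₊) atTop (𝓝 γ') →
          |Real.log (1 - γ') - Real.log (1 - γ) + b * ((l' - l) / L)| ≤
            C * Real.exp (-c * (l / L)) * ((l' - l) / L)))) := by
  obtain ⟨c, C, hc, hC, hf⟩ := finite2 hB
  have hS' := hS c C (fun w n => hh (1/2) w n) hc hC (fun n w hn hw => hh_pos hn hw) (by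
    intro n hn
    obtain ⟨A, β, Φ, ⟨a1, a2⟩, ⟨a3, a4⟩, -, -, a5, -, a6⟩ := hf n hn
    exact ⟨A, β, a1, a2, a3, a4, a5, a6⟩)
  refine ⟨c, C, hc, hC, hf, ?_⟩
  intro ψ hψ
  constructor
  · intro l hl
    obtain ⟨A, b, a1, a2, a3, a4, a5, a6⟩ := hS' (fun k => ⌊l * ψ k⌋₊) (sides hψ hl)
    have rat : ∀ {L : ℝ}, 0 < L → Tendsto (fun k => ((⌊L * ψ k⌋₊ : ℕ) : ℝ) / ((⌊l * ψ k⌋₊ : ℕ) : ℝ))
        atTop (𝓝 (L / l)) := by
      intro L hL
      simpa using ratio hψ hL hl 0 0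
    refine ⟨A, b, ⟨a1, a2⟩, ⟨a3, a4⟩, ?_, ?_⟩
    · intro L γ hL hγ
      exact a5 (fun k => ⌊L * ψ k⌋₊) (L / l) γ (by positivity) (rat hL) hγ
    · intro L L' γ γ' hL hLL hγ hγ'
      have L0 : 0 < L := hl.trans hL
      have L0' : 0 < L' := L0.trans hLL
      have p1 : 0 < γ := lim_pos (sides hψ hl) ((sides hψ L0).eventually_ge_atTop 1) (rat L0) hγ
      have p2 : 0 < γ' := lim_pos (sides hψ hl) ((sides hψ L0').eventually_ge_atTop 1)
        (rat L0') hγ'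
      have := a6 (fun k => ⌊L * ψ k⌋₊) (fun k => ⌊L' * ψ k⌋₊) (L / l) (L' / l) γ γ'
        ((one_lt_div hl).mpr hL) ((div_lt_div_iff_of_pos_right hl).mpr hLL) (rat L0) (rat L0')
        hγ hγ' p1 p2
      rw [← sub_div] at this
      exact this
  · intro L hL
    obtain ⟨A, b, a1, a2, a3, a4, a5, a6⟩ := hS' (fun k => ⌊L * ψ k⌋₊ - 1) (by
      exact (tendsto_sub_atTop_nat 1).comp (sides hψ hL))
    have hev : ∀ᶠ k : ℕ in atTop, 2 ≤ ⌊L * ψ k⌋₊ := (sides hψ hL).eventually_ge_atTop 2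
    have rat : ∀ {l : ℝ}, 0 < l →
        Tendsto (fun k => ((⌊l * ψ k⌋₊ + 1 : ℕ) : ℝ) / ((⌊L * ψ k⌋₊ - 1 : ℕ) : ℝ))
        atTop (𝓝 (l / L)) := by
      intro l hl
      refine (ratio hψ hl hL 1 (-1)).congr' ?_
      filter_upwards [hev] with k hk
      push_cast [Nat.cast_sub (show 1 ≤ ⌊L * ψ k⌋₊ by omega)]
      rfl
    have dual : ∀ {l γ : ℝ}, Tendsto (fun k => hh (1/2) ⌊L * ψ k⌋₊ ⌊l * ψ k⌋₊) atTop (𝓝 γ) →
        Tendsto (fun k => hh (1/2) ((⌊l * ψ k⌋₊ + 1 : ℕ) : ℤ) ((⌊L * ψ k⌋₊ - 1 : ℕ) : ℤ))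
        atTop (𝓝 (1 - γ)) := by
      intro l γ hγ
      refine (tendsto_const_nhds.sub hγ).congr' ?_
      filter_upwards [hev] with k hk
      rw [Pool.Agent.W424.AR.dualhalf (w := (⌊L * ψ k⌋₊ : ℤ)) (h := (⌊l * ψ k⌋₊ : ℤ))
        (by omega) (by omega)]
      push_cast [Nat.cast_sub (show 1 ≤ ⌊L * ψ k⌋₊ by omega)]
      rfl
    refine ⟨A, b, ⟨a1, a2⟩, ⟨a3, a4⟩, ?_, ?_⟩
    · intro l γ hl hγ
      exact a5 (fun k => ⌊l * ψ k⌋₊ + 1) (l / L) (1 - γ) (by positivity) (rat hl) (dual hγ)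
    · intro l l' γ γ' hl hll hγ hγ'
      have l0 : 0 < l := hL.trans hl
      have l0' : 0 < l' := l0.trans hll
      have hu : Tendsto (fun k => ⌊L * ψ k⌋₊ - 1) atTop atTop :=
        (tendsto_sub_atTop_nat 1).comp (sides hψ hL)
      have p1 : 0 < 1 - γ := lim_pos hu (Eventually.of_forall fun k => by omega) (rat l0) (dual hγ)
      have p2 : 0 < 1 - γ' := lim_pos hu (Eventually.of_forall fun k => by omega) (rat l0')
        (dual hγ')
      have := a6 (fun k => ⌊l * ψ k⌋₊ + 1) (fun k => ⌊l' * ψ k⌋₊ + 1) (l / L) (l' / L)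
        (1 - γ) (1 - γ') ((one_lt_div hL).mpr hl) ((div_lt_div_iff_of_pos_right hL).mpr hll)
        (rat l0) (rat l0') (dual hγ) (dual hγ') p1 p2
      rw [← sub_div] at this
      exact this

end Pool.Agent.Y197.LR.Last2
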