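import Pool.Agent.H974R2.Circ
import Pool.Agent.H974R2.RSW2

/-!
Project LR (crossing probabilities of long rectangles, critical bond percolation on `ℤ²`):
definitions and statements of the jobs.
-/

set_option autoImplicit false

namespace Pool.Agent.Y197.LR

open H974 Finset

/-- fair coins -/
noncomputable abbrev hf : Edg → ℝ := fun _ => 1/2

/-- The edges of the strip `0 ≤ y ≤ n` whose first end point has its column in `[c, c')`. -/
noncomputable def SE (n c c' : ℤ) : Finset Edg := (RE c c' 0 n).filter (fun e => e.1 < c')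

/-- `G` contains a path from `S` to `T`. -/
def Cn (S T : Set Vtx) (G : Finset Edg) : Prop := ∃ s ∈ S, ∃ t ∈ T, Reach ↑G s t

/-- The probability that `S` is joined to `T` by `G` and the random edges of `E`. -/
noncomputable def U (E : Finset Edg) (T S : Set Vtx) (G : Finset Edg) : ℝ :=
  Pr hf E (fun η => Cn S T (G ∪ η))

/-- The edge `e` lies in the strip. -/
def InS (n : ℤ) (e : Edg) : Prop := 0 ≤ e.2.1 ∧ (tgt e).2 ≤ n

/-- All edges of `G` are edges of the strip with first column at least `c`. -/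
def Rt (n c : ℤ) (G : Finset Edg) : Prop := ∀ e ∈ G, c ≤ e.1 ∧ InS n e

/-- All vertices of `S` are vertices of the strip with column at least `c`. -/
def RtV (n c : ℤ) (S : Set Vtx) : Prop := ∀ s ∈ S, c ≤ s.1 ∧ 0 ≤ s.2 ∧ s.2 ≤ n

/-- Left structures at the column `c`: random edges `E` to the left of the column `c`, containing
all edges of the columns `[c - n, c)`, and a target `T` in the columns `≤ c - n`. -/
structure LS (n c : ℤ) (E : Finset Edg) (T : Set Vtx) : Prop where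
  lt : ∀ e ∈ E, e.1 < c ∧ InS n e
  sub : SE n (c - n) c ⊆ E
  tgt : ∀ t ∈ T, t.1 ≤ c - n ∧ 0 ≤ t.2 ∧ t.2 ≤ n

/-- The vertices of the strip in the column `c`. -/
def col (n c : ℤ) : Set Vtx := {v | v.1 = c ∧ 0 ≤ v.2 ∧ v.2 ≤ n}

/-- The vertices joined to the column `n + 1` by a path of the strip (open or not) all of whose
vertices are not end points of the explored edges `K`. -/
def Far (n : ℤ) (K : Finset Edg) (v : Vtx) : Prop :=
  ∃ u ∈ col n (n + 1), Reach {e | InS n e ∧ ¬ WW K (src e) ∧ ¬ WW K (tgt e)} u v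

/-- The end points of explored edges which have a neighbour in `Far`. -/
def Bd (n : ℤ) (K : Finset Edg) : Set Vtx :=
  {w | WW K w ∧ ∃ u, Far n K u ∧ Adj {e | InS n e} u w}

/-- Edges with an end point in `Far`. -/
def EA (n : ℤ) (K : Finset Edg) (e : Edg) : Prop := Far n K (src e) ∨ Far n K (tgt e)

/-- **Topology**: the points of `Bd` are joined to each other by explored open edges. -/
def S_TOP : Prop := ∀ (n : ℤ) (F : Finset Edg), 0 < n → good n F →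
  ∀ v ∈ Bd n (KK n F), ∀ w ∈ Bd n (KK n F), Reach ↑(F ∩ KK n F) v w

open Classical in
/-- **Decomposition** at the explored crossing. -/
def S_DEC : Prop := ∀ (n : ℤ) (F : Finset Edg), 0 < n → good n F → (∀ e ∈ F, InS n e) →
  ∀ S T : Set Vtx, RtV n (n + 1) S → (∀ t ∈ T, t.1 ≤ 0 ∧ 0 ≤ t.2 ∧ t.2 ≤ n) →
    (Cn S T F ↔ Cn S (Bd n (KK n F)) (F.filter (EA n (KK n F))) ∧
      Cn (Bd n (KK n F)) T (F.filter (fun e => ¬ EA n (KK n F) e)))

/-- The width of a block. -/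
def N (n : ℤ) : ℤ := 2 * n + 2

/-- The probability that the state `(S, F)` at the column `N n` is joined to the column
`n + 1`. -/
noncomputable def aa (n : ℤ) (S : Set Vtx) (F : Finset Edg) : ℝ :=
  U (SE n (n + 1) (N n)) (col n (n + 1)) S F

/-- The probability that the column `0` is joined to the target. -/
noncomputable def bb (n : ℤ) (E : Finset Edg) (T : Set Vtx) : ℝ :=
  Pr hf E (fun η => Cn (col n 0) T η)

open Classical in
/-- The mean value of the functional at the explored crossing. -/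
noncomputable def Ub (n : ℤ) (E : Finset Edg) (T : Set Vtx) : ℝ :=
  Ex hf (SE n 0 (N n)) (fun ω => ind (good n ω) *
    U E T (Bd n (KK n ω)) (ω.filter (fun e => ¬ EA n (KK n ω) e)))

/-- RSW for all heights `≥ 1`, widths up to four times the height plus four. -/
def S_RSW : Prop := ∃ κ : ℝ, 0 < κ ∧ ∀ n w : ℤ, 1 ≤ n → 1 ≤ w → w ≤ 4 * n + 4 →
  κ ≤ hh (1/2) w n

open Classical in
/-- Lower bound for the first half of the decomposition, uniformly in the explored set. -/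
def S_P1 : Prop := ∃ d : ℝ, 0 < d ∧ ∀ (n : ℤ) (F0 : Finset Edg), 1 ≤ n → good n F0 →
  ∀ (S : Set Vtx) (F : Finset Edg), RtV n (N n) S → Rt n (N n) F →
    d * aa n S F ≤ Pr hf (SE n 0 (N n))
      (fun ω => Cn S (Bd n (KK n F0)) ((F ∪ ω).filter (EA n (KK n F0))))

/-- Upper bound. -/
def S_P2 : Prop := ∀ (n : ℤ) (E : Finset Edg) (T S : Set Vtx) (F : Finset Edg), 1 ≤ n →
  LS n 0 E T → RtV n (N n) S → Rt n (N n) F →
    U (E ∪ SE n 0 (N n)) T S F ≤ aa n S F * bb n E T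

/-- Lower bound for the second half of the decomposition. -/
def S_P3 : Prop := ∃ d : ℝ, 0 < d ∧ ∀ (n : ℤ) (E : Finset Edg) (T : Set Vtx), 1 ≤ n →
  LS n 0 E T → d * bb n E T ≤ Ub n E T

/-- Factorization through the explored crossing. -/
def S_FAC : Prop := ∃ d : ℝ, 0 < d ∧ ∀ (n : ℤ) (E E' : Finset Edg) (T T' : Set Vtx) (p q : ℝ),
  1 ≤ n → LS n 0 E T → LS n 0 E' T' →
  (∀ (S : Set Vtx) (G : Finset Edg), RtV n 0 S → Rt n 0 G →
    0 ≤ p * U E T S G + q * U E' T' S G) →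
  ∀ (S : Set Vtx) (F : Finset Edg), RtV n (N n) S → Rt n (N n) F →
    d * aa n S F * (p * Ub n E T + q * Ub n E' T') ≤
      p * U (E ∪ SE n 0 (N n)) T S F + q * U (E' ∪ SE n 0 (N n)) T' S F

/-- One step of the contraction, and its initial step. -/
def S_STEP : Prop := ∃ d : ℝ, 0 < d ∧ d < 1 ∧ ∀ (n : ℤ) (E E' : Finset Edg) (T T' : Set Vtx),
  1 ≤ n → LS n 0 E T → LS n 0 E' T' →
    (0 < bb n E T → 0 < bb n E' T' → ∃ m M : ℝ, 0 < m ∧ m ≤ M ∧ M ≤ m / d ∧ ∀ (S : Set Vtx) (F : Finset Edg),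
      RtV n (N n) S → Rt n (N n) F →
        m * U (E ∪ SE n 0 (N n)) T S F ≤ U (E' ∪ SE n 0 (N n)) T' S F ∧
        U (E' ∪ SE n 0 (N n)) T' S F ≤ M * U (E ∪ SE n 0 (N n)) T S F) ∧
    (∀ m M : ℝ, 0 < m → m ≤ M → (∀ (S : Set Vtx) (G : Finset Edg), RtV n 0 S → Rt n 0 G →
        m * U E T S G ≤ U E' T' S G ∧ U E' T' S G ≤ M * U E T S G) →
      ∃ m' M' : ℝ, m ≤ m' ∧ m' ≤ M' ∧ M' ≤ M ∧ M' - m' ≤ (1 - d) * (M - m) ∧
        ∀ (S : Set Vtx) (F : Finset Edg), RtV n (N n) S → Rt n (N n) F →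
          m' * U (E ∪ SE n 0 (N n)) T S F ≤ U (E' ∪ SE n 0 (N n)) T' S F ∧
          U (E' ∪ SE n 0 (N n)) T' S F ≤ M' * U (E ∪ SE n 0 (N n)) T S F)

/-- After `k` blocks. -/
def S_ITER : Prop := ∃ d : ℝ, 0 < d ∧ d < 1 ∧ ∀ (n : ℤ) (E E' : Finset Edg) (T T' : Set Vtx),
  1 ≤ n → LS n 0 E T → LS n 0 E' T' → 0 < bb n E T → 0 < bb n E' T' → ∀ k : ℕ,
    ∃ m M : ℝ, 0 < m ∧ m ≤ M ∧ M ≤ (1 + (1 - d) ^ k / d) * m ∧
      ∀ (S : Set Vtx) (F : Finset Edg), RtV n ((k + 1) * N n) S → Rt n ((k + 1) * N n) F →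
        m * U (E ∪ SE n 0 ((k + 1) * N n)) T S F ≤ U (E' ∪ SE n 0 ((k + 1) * N n)) T' S F ∧
        U (E' ∪ SE n 0 ((k + 1) * N n)) T' S F ≤ M * U (E ∪ SE n 0 ((k + 1) * N n)) T S F

/-- The probability that some point of `{0} × T` is joined to some point of `{w} × S` in
the rectangle `[0, w] × [0, n]`. -/
noncomputable def Q (n w : ℤ) (T S : Finset ℤ) : ℝ :=
  Pr hf (RE 0 w 0 n) (fun G => ∃ t ∈ T, ∃ s ∈ S, Reach (↑G : Set Edg) (0, t) (w, s))

/-- The cross-ratio inequality. -/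
def S_CR : Prop := ∃ d : ℝ, 0 < d ∧ d < 1 ∧ ∀ (n a a' b b' : ℤ) (k : ℕ) (T T' S S' : Finset ℤ),
  1 ≤ n → n ≤ a → n ≤ a' → 0 ≤ b → 0 ≤ b' →
  T ⊆ Icc 0 n → T' ⊆ Icc 0 n → S ⊆ Icc 0 n → S' ⊆ Icc 0 n → T.Nonempty → T'.Nonempty →
    Q n (a + (k + 1) * N n + b) T S * Q n (a' + (k + 1) * N n + b') T' S' ≤
      (1 + (1 - d) ^ k / d) *
        (Q n (a' + (k + 1) * N n + b) T' S * Q n (a + (k + 1) * N n + b') T S')

/-- Elementary properties of `Q`. -/
def S_QEL : Prop := ∀ (n w : ℤ) (T S : Finset ℤ), 1 ≤ n → 1 ≤ w → T ⊆ Icc 0 n → S ⊆ Icc 0 n →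
  (T.Nonempty → S.Nonempty → 0 < Q n w T S) ∧ Q n w T S = Q n w S T ∧
  Q n w T S ≤ Q n w (Icc 0 n) S ∧ Q n w (Icc 0 n) (Icc 0 n) = hh (1/2) w n

/-- Growth of the crossing probabilities of rectangles. -/
def S_GR : Prop := ∃ κ : ℝ, 0 < κ ∧ κ < 1 ∧ (∀ n w : ℤ, 1 ≤ n → 1 ≤ w → w ≤ 4 * n + 4 →
    κ ≤ hh (1/2) w n) ∧
  (∀ n w : ℤ, 1 ≤ n → 1 ≤ w → hh (1/2) (w + 2 * n) n ≤ 1 / 2 * hh (1/2) w n) ∧
  (∀ n w : ℤ, 1 ≤ n → n ≤ w → κ * hh (1/2) w n ≤ hh (1/2) (w + n) n)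

/-- Real analysis: from the cross-ratio inequality to the exponential form. -/
def S_ANA : Prop := ∀ (I : Type) (o : I) (L : ℕ → I → I → ℝ) (w0 : ℕ) (ε : ℕ → ℝ),
  Filter.Tendsto ε Filter.atTop (nhds 0) → Antitone ε →
  (∀ w T S, L w T S = L w S T) →
  (∀ w s s' : ℕ, w0 ≤ w → ∀ T T' S S' : I,
    |L w T S + L (w + s + s') T' S' - L (w + s) T' S - L (w + s') T S'| ≤ ε w) →
  ∃ (α β : ℝ) (φ : I → ℝ), φ o = 0 ∧ ∀ w, w0 ≤ w → ∀ T S : I,
    |L w T S - (α + φ T + φ S - β * w)| ≤ 4 * ε w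

end Pool.Agent.Y197.LR
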