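import Mathlib

/-!
Project LR, differentiated form: statements of real analysis.
-/

set_option autoImplicit false

namespace Pool.Agent.Y197.LR

open Filter

/-- Interpolation: a sequence which is exponentially small and has bounded second differences has
exponentially small first differences. -/
def S_INT : Prop := ∀ (M c B : ℝ), 0 < M → 0 < c → 0 < B → ∃ C : ℝ, 0 < C ∧
  ∀ (h : ℕ) (f : ℕ → ℝ), 1 ≤ h →
    (∀ w : ℕ, 1 ≤ w → |f w| ≤ M * Real.exp (-c * w / h)) →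
    (∀ w : ℕ, 1 ≤ w → h ≤ w → |f (w + 2) - 2 * f (w + 1) + f w| ≤ B / (h:ℝ) ^ 2) →
    ∀ w : ℕ, 1 ≤ w → h ≤ w → |f (w + 1) - f w| ≤ C * Real.exp (-(c / 2) * w / h) / h

/-- Second differences of the logarithm. -/
def S_LSD : Prop := ∀ (κ C : ℝ), 0 < κ → 0 < C → ∃ B : ℝ, 0 < B ∧ ∀ (h : ℕ) (x y z : ℝ), 1 ≤ h →
  0 < x → 0 < y → 0 < z → y ≤ x → z ≤ y → κ * x ≤ y → κ * y ≤ z →
  x - y ≤ C * x / h → y - z ≤ C * y / h → |z - 2 * y + x| ≤ C * y / (h:ℝ) ^ 2 →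
    |Real.log z - 2 * Real.log y + Real.log x| ≤ B / (h:ℝ) ^ 2

/-- From the relative error to the logarithm. -/
def S_LOG : Prop := ∀ (κ c C : ℝ), 0 < κ → κ < 1 → 0 < c → 0 < C → ∃ M : ℝ, 0 < M ∧
  ∀ (n : ℕ) (A β : ℝ) (q : ℕ → ℝ), 1 ≤ n → 1 / C ≤ A → A ≤ C → c / n ≤ β → β ≤ C / n →
    (∀ w : ℕ, 1 ≤ w → 0 < q w ∧ q w ≤ 1) →
    (∀ w : ℕ, 1 ≤ w → w ≤ n → κ ≤ q w) →
    (∀ w : ℕ, n ≤ w → ∀ j : ℕ, κ ^ j * q w ≤ q (w + j * n)) →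
    (∀ w w' : ℕ, 1 ≤ w → w ≤ w' → q w' ≤ q w) →
    (∀ w : ℕ, 1 ≤ w → |q w / (A * Real.exp (-β * w)) - 1| ≤ C * Real.exp (-c * w / n)) →
    ∀ w : ℕ, 1 ≤ w →
      |Real.log (q w) - Real.log A + β * w| ≤ M * Real.exp (-c * w / n)

/-- Limits along sequences of heights, with increments. -/
def S_SUB2 : Prop := ∀ (c C : ℝ) (q : ℕ → ℕ → ℝ), 0 < c → 0 < C →
  (∀ n w : ℕ, 1 ≤ n → 1 ≤ w → 0 < q w n) →
  (∀ n : ℕ, 1 ≤ n → ∃ A β : ℝ, 1 / C ≤ A ∧ A ≤ C ∧ c / n ≤ β ∧ β ≤ C / n ∧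
    (∀ w : ℕ, 1 ≤ w →
      |q w n / (A * Real.exp (-β * w)) - 1| ≤ C * Real.exp (-c * w / n)) ∧
    ∀ w : ℕ, n ≤ w →
      |Real.log (q (w + 1) n) - Real.log (q w n) + β| ≤ C * Real.exp (-c * w / n) / n) →
  ∀ u : ℕ → ℕ, Tendsto u atTop atTop → ∃ A b : ℝ, 1 / C ≤ A ∧ A ≤ C ∧ c ≤ b ∧ b ≤ C ∧
    (∀ (v : ℕ → ℕ) (l γ : ℝ), 0 < l → Tendsto (fun k => (v k : ℝ) / u k) atTop (nhds l) →
      Tendsto (fun k => q (v k) (u k)) atTop (nhds γ) →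
      |γ / (A * Real.exp (-b * l)) - 1| ≤ C * Real.exp (-c * l)) ∧
    (∀ (v v' : ℕ → ℕ) (l l' γ γ' : ℝ), 1 < l → l < l' →
      Tendsto (fun k => (v k : ℝ) / u k) atTop (nhds l) →
      Tendsto (fun k => (v' k : ℝ) / u k) atTop (nhds l') →
      Tendsto (fun k => q (v k) (u k)) atTop (nhds γ) →
      Tendsto (fun k => q (v' k) (u k)) atTop (nhds γ') → 0 < γ → 0 < γ' →
      |Real.log γ' - Real.log γ + b * (l' - l)| ≤ C * Real.exp (-c * l) * (l' - l))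

end Pool.Agent.Y197.LR
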