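import Pool.Agent.Y197.LR.Stm

/-!
Project LR, topological lemma: the end points of explored edges which have a neighbour in the
unexplored region on the right are joined to each other by explored open edges.
-/

set_option maxHeartbeats 1000000

namespace Pool.Agent.Y197.LR.Top

open H974 Finset

theorem WW_range {n : ℤ} {F : Finset Edg} {a b : ℤ} (h : WW (KK n F) (a, b)) :
    0 ≤ a ∧ a ≤ n ∧ 0 ≤ b ∧ b ≤ n := by
  obtain ⟨⟨x1, y1, bo⟩, heK, hew⟩ := h
  have heT := KK_subset n F heK
  cases bo
  · have hm' : 0 ≤ x1 ∧ x1 ≤ n ∧ 0 ≤ y1 ∧ y1 < n := by simpa using heT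
    simp only [src_mk, tgt_false, Prod.mk.injEq] at hew
    rcases hew with h | h <;> omega
  · have hm' : 0 ≤ x1 ∧ x1 < n ∧ 0 < y1 ∧ y1 < n := by simpa using heT
    simp only [src_mk, tgt_true, Prod.mk.injEq] at hew
    rcases hew with h | h <;> omega

theorem main : S_TOP := by
  intro n F hn hgood0 v hv w hw
  have hgood : ∀ y, 0 ≤ y → y < n → ¬ Dual0 n F (n, y) := hgood0
  by_contra hcon
  set D : ℤ → ℤ → Prop := fun x y => Dual0 n F (x, y) with hD
  have D1 : ∀ y, 0 ≤ y → y < n → D (-1) y := fun y h1 h2 => ⟨y, ⟨h1, h2⟩, DReach.refl _ _⟩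
  set B : Set Edg := {e | e ∈ TBE 0 n 0 n ∧ ¬ (Dual0 n F (dsrc e) ↔ Dual0 n F (dtgt e))} with hB
  have hBF : ∀ e ∈ B, e ∈ F := by
    rintro e ⟨h1, h2⟩
    by_contra h3
    exact h2 (Dual0_closed h1 h3)
  have hBK : ∀ e ∈ B, e ∈ KK n F := by
    rintro e ⟨h1, h2⟩
    rw [mem_KK]
    refine ⟨h1, ?_⟩
    by_contra h3
    push Not at h3
    exact h2 ⟨fun h => absurd h h3.1, fun h => absurd h h3.2⟩
  set C : Vtx → Prop := fun u => Reach B v u with hC
  have hCB : ∀ e ∈ B, (C (src e) ↔ C (tgt e)) := by
    intro e he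
    constructor
    · intro h; exact h.trans (Adj.reach ⟨e, he, Or.inl ⟨rfl, rfl⟩⟩)
    · intro h; exact h.trans (Adj.reach ⟨e, he, Or.inr ⟨rfl, rfl⟩⟩)
  have hCv : C v := Reach.refl _ _
  have hCw : ¬ C w := by
    intro h
    refine hcon (Reach.mono ?_ h)
    intro e he
    rw [mem_coe, mem_inter]
    exact ⟨hBF e he, hBK e he⟩
  set z : Edg → ZMod 2 := fun e => b2 (e ∈ B ∧ C (src e)) with hz
  have z_out : ∀ e, e ∉ TBE 0 n 0 n → z e = 0 := by
    intro e he
    simp only [hz]
    rw [b2_not_of]
    rintro ⟨⟨h, -⟩, -⟩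
    exact he h
  have z_notK : ∀ e, e ∉ KK n F → z e = 0 := by
    intro e he
    simp only [hz]
    rw [b2_not_of]
    rintro ⟨h, -⟩
    exact he (hBK e h)
  have z_notC : ∀ e, (¬ C (src e) ∨ ¬ C (tgt e)) → z e = 0 := by
    intro e he
    simp only [hz]
    rw [b2_not_of]
    rintro ⟨h, h2⟩
    rcases he with he | he
    · exact he h2
    · exact he ((hCB e h).mp h2)
  have z_eq : ∀ e, e ∈ TBE 0 n 0 n → (C (src e) ∨ C (tgt e)) →
      z e = b2 (Dual0 n F (dsrc e)) + b2 (Dual0 n F (dtgt e)) := by
    intro e he hc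
    simp only [hz]
    by_cases h1 : Dual0 n F (dsrc e) <;> by_cases h2 : Dual0 n F (dtgt e)
    · rw [b2_not_of, b2_of h1, b2_of h2]; · rfl
      rintro ⟨⟨-, h⟩, -⟩; exact h (by simp [h1, h2])
    · have heB : e ∈ B := ⟨he, by simp [h1, h2]⟩
      have hcs : C (src e) := by
        rcases hc with h | h
        · exact h
        · exact (hCB e heB).mpr h
      rw [b2_of ⟨heB, hcs⟩, b2_of h1, b2_not_of h2]; rfl
    · have heB : e ∈ B := ⟨he, by simp [h1, h2]⟩
      have hcs : C (src e) := by
        rcases hc with h | h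
        · exact h
        · exact (hCB e heB).mpr h
      rw [b2_of ⟨heB, hcs⟩, b2_of h2, b2_not_of h1]; rfl
    · rw [b2_not_of, b2_not_of h1, b2_not_of h2]; · rfl
      rintro ⟨⟨-, h⟩, -⟩; exact h (by simp [h1, h2])
  -- evenness at vertices
  have even : ∀ x y, 0 ≤ x → 0 < y → y < n →
      z (x, y - 1, false) + z (x, y, false) + (z (x - 1, y, true) + z (x, y, true)) = 0 := by
    intro x y hx hy hyn
    by_cases hxn : n < x
    · rw [z_out (x, y - 1, false) (by simp only [mem_TBE_false]; omega),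
        z_out (x, y, false) (by simp only [mem_TBE_false]; omega),
        z_out (x - 1, y, true) (by simp only [mem_TBE_true]; omega),
        z_out (x, y, true) (by simp only [mem_TBE_true]; omega)]
      rfl
    by_cases hCv : C (x, y)
    · have e1 := z_eq (x, y - 1, false) (by simp only [mem_TBE_false]; omega)
        (Or.inr (by simpa using hCv))
      have e2 := z_eq (x, y, false) (by simp only [mem_TBE_false]; omega)
        (Or.inl (by simpa using hCv))
      have e3 : z (x - 1, y, true) = b2 (D (x - 1) (y - 1)) + b2 (D (x - 1) y) := by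
        by_cases h0 : x = 0
        · subst h0
          rw [z_out (0 - 1, y, true) (by simp only [mem_TBE_true]; omega)]
          have k1 : D (0 - 1) (y - 1) := D1 _ (by omega) (by omega)
          have k2 : D (0 - 1) y := D1 _ (by omega) (by omega)
          rw [b2_of k1, b2_of k2]; rfl
        · have := z_eq (x - 1, y, true) (by simp only [mem_TBE_true]; omega)
            (Or.inr (by simpa using hCv))
          simpa using this
      have e4 : z (x, y, true) = b2 (D x (y - 1)) + b2 (D x y) := by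
        by_cases h0 : x = n
        · subst h0
          rw [z_out (x, y, true) (by simp only [mem_TBE_true]; omega)]
          have k1 : ¬ D x (y - 1) := hgood _ (by omega) (by omega)
          have k2 : ¬ D x y := hgood _ (by omega) (by omega)
          rw [b2_not_of k1, b2_not_of k2]; rfl
        · have := z_eq (x, y, true) (by simp only [mem_TBE_true]; omega)
            (Or.inl (by simpa using hCv))
          simpa using this
      simp only [dsrc_false, dtgt_mk] at e1 e2
      rw [e1, e2, e3, e4]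
      simp only [hD]
      have f1 := zmod2_add_self (b2 (Dual0 n F (x - 1, y - 1)))
      have f2 := zmod2_add_self (b2 (Dual0 n F (x, y - 1)))
      have f3 := zmod2_add_self (b2 (Dual0 n F (x - 1, y)))
      have f4 := zmod2_add_self (b2 (Dual0 n F (x, y)))
      linear_combination f1 + f2 + f3 + f4
    · rw [z_notC (x, y - 1, false) (Or.inr (by simpa using hCv)),
        z_notC (x, y, false) (Or.inl (by simpa using hCv)),
        z_notC (x - 1, y, true) (Or.inr (by simpa using hCv)),
        z_notC (x, y, true) (Or.inl (by simpa using hCv))]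
      rfl
  -- the face function
  set s : ℤ → ℤ → ZMod 2 := fun x y => ∑ i ∈ Finset.Ico 0 (x + 1), z (i, y, false) with hs
  have s_neg : ∀ y, s (-1) y = 0 := by intro y; simp [hs]
  have sH : ∀ x y, 0 ≤ x → s x y = s (x - 1) y + z (x, y, false) := by
    intro x y hx
    simp only [hs]
    have : x - 1 + 1 = x := by ring
    rw [this, sum_Ico_int_succ hx]
  have sV0 : ∀ (k : ℕ) (y : ℤ), 0 < y → y < n →
      s (-1 + k) y + s (-1 + k) (y - 1) = z (-1 + k, y, true) := by
    intro k y h1 h2
    induction k with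
    | zero =>
      have e0 : (-1 : ℤ) + ((0:ℕ):ℤ) = -1 := by norm_num
      rw [e0, s_neg, s_neg, z_out (-1, y, true) (by simp only [mem_TBE_true]; omega)]
      rfl
    | succ k ih =>
      have e1 : (-1 : ℤ) + ((k + 1 : ℕ) : ℤ) = (-1 + k) + 1 := by push_cast; ring
      rw [e1]
      have e2 := sH (-1 + k + 1) y (by omega)
      have e3 := sH (-1 + k + 1) (y - 1) (by omega)
      have e4 : (-1 + (k:ℤ) + 1) - 1 = -1 + k := by ring
      rw [e4] at e2 e3
      have e5 := even (-1 + k + 1) y (by omega) h1 h2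
      rw [e4] at e5
      rw [e2, e3]
      have f1 := zmod2_add_self (z (-1 + (k:ℤ) + 1, y, true))
      linear_combination ih + e5 - f1
  have sV : ∀ x y, -1 ≤ x → 0 < y → y < n → s x y + s x (y - 1) = z (x, y, true) := by
    intro x y hx h1 h2
    obtain ⟨k, hk⟩ := Int.eq_ofNat_of_zero_le (show 0 ≤ x + 1 by omega)
    have : x = -1 + k := by omega
    rw [this]
    exact sV0 k y h1 h2
  -- flux
  have hq : ∀ y, 0 < y → y < n → s n y = s n (y - 1) := by
    intro y h1 h2
    have := sV n y (by omega) h1 h2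
    rw [z_out (n, y, true) (by simp only [mem_TBE_true]; omega)] at this
    have f1 := zmod2_add_self (s n (y - 1))
    linear_combination this - f1
  have hqq : ∀ k : ℕ, (k : ℤ) < n → s n k = s n 0 := by
    intro k
    induction k with
    | zero => intro _; simp
    | succ k ih =>
      intro hk
      push_cast at hk ⊢
      rw [hq (k + 1) (by omega) (by omega)]
      have : (k:ℤ) + 1 - 1 = k := by ring
      rw [this]
      exact ih (by omega)
  have hqall : ∀ y, 0 ≤ y → y < n → s n y = s n 0 := by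
    intro y h1 h2
    obtain ⟨k, hk⟩ := Int.eq_ofNat_of_zero_le h1
    have := hqq k (by omega)
    rw [hk]; exact this
  set q : ZMod 2 := s n 0 with hqdef
  have s_big : ∀ x y, n ≤ x → 0 ≤ y → y < n → s x y = q := by
    intro x y hx h1 h2
    obtain ⟨k, hk⟩ := Int.eq_ofNat_of_zero_le (show 0 ≤ x - n by omega)
    have : x = n + k := by omega
    rw [this]
    clear hx hk this
    induction k with
    | zero => simp only [Nat.cast_zero, add_zero]; rw [hqall y h1 h2]
    | succ k ih =>
      have e1 : n + ((k + 1 : ℕ) : ℤ) = (n + k) + 1 := by push_cast; ring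
      rw [e1, sH _ y (by omega), z_out (n + k + 1, y, false) (by simp only [mem_TBE_false]; omega)]
      have e4 : (n + (k:ℤ) + 1) - 1 = n + k := by ring
      rw [e4, ih, add_zero]
  -- `s` vanishes on `D`
  have s_D : ∀ f : Vtx, Dual0 n F f → (-1 ≤ f.1 ∧ 0 ≤ f.2 ∧ f.2 < n) ∧ s f.1 f.2 = 0 := by
    rintro f ⟨y, hy, h⟩
    have : ∀ g, DReach ((↑F : Set Edg)ᶜ ∩ ↑(TBE 0 n 0 n)) (-1, y) g →
        (Dual0 n F g ∧ (-1 ≤ g.1 ∧ 0 ≤ g.2 ∧ g.2 < n)) ∧ s g.1 g.2 = 0 := by
      intro g hg
      induction hg with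
      | refl => exact ⟨⟨⟨y, hy, DReach.refl _ _⟩, by simp only; omega⟩, s_neg y⟩
      | @tail g g' _ hst ih =>
        obtain ⟨⟨ihD, ihr⟩, ihs⟩ := ih
        obtain ⟨e, ⟨heF, heT⟩, hcase⟩ := hst
        have hcl := Dual0_closed (n := n) (F := F) heT heF
        have hze : z e = 0 := by
          simp only [hz]
          rw [b2_not_of]
          rintro ⟨⟨-, h⟩, -⟩
          exact h hcl
        have hDg' : Dual0 n F g' := by
          rcases hcase with ⟨h1, h2⟩ | ⟨h1, h2⟩
          · rw [← h2]; rw [← h1] at ihD; exact hcl.mp ihD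
          · rw [← h1]; rw [← h2] at ihD; exact hcl.mpr ihD
        obtain ⟨x1, y1, bo⟩ := e
        cases bo
        · have hm' : 0 ≤ x1 ∧ x1 ≤ n ∧ 0 ≤ y1 ∧ y1 < n := by simpa using heT
          have h5 := sH x1 y1 hm'.1
          rw [hze, add_zero] at h5
          simp only [dsrc_false, dtgt_mk] at hcase
          rcases hcase with ⟨h1, h2⟩ | ⟨h1, h2⟩
          · rw [← h1] at ihs; rw [← h2] at hDg' ⊢
            exact ⟨⟨hDg', by simp only; omega⟩, by simp only at ihs ⊢; rw [h5, ihs]⟩
          · rw [← h2] at ihs; rw [← h1] at hDg' ⊢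
            exact ⟨⟨hDg', by simp only; omega⟩, by simp only at ihs ⊢; rw [← h5, ihs]⟩
        · have hm' : 0 ≤ x1 ∧ x1 < n ∧ 0 < y1 ∧ y1 < n := by simpa using heT
          have h5 := sV x1 y1 (by omega) hm'.2.2.1 hm'.2.2.2
          rw [hze] at h5
          have f1 := zmod2_add_self (s x1 y1)
          have f2 := zmod2_add_self (s x1 (y1 - 1))
          simp only [dsrc_true, dtgt_mk] at hcase
          rcases hcase with ⟨h1, h2⟩ | ⟨h1, h2⟩
          · rw [← h1] at ihs; rw [← h2] at hDg' ⊢
            refine ⟨⟨hDg', by simp only; omega⟩, ?_⟩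
            simp only at ihs ⊢
            linear_combination h5 - ihs
          · rw [← h2] at ihs; rw [← h1] at hDg' ⊢
            refine ⟨⟨hDg', by simp only; omega⟩, ?_⟩
            simp only at ihs ⊢
            linear_combination h5 - ihs
    obtain ⟨⟨-, h2⟩, h3⟩ := this f h
    exact ⟨h2, h3⟩
  -- corners of faces in `D` are in `WW`
  have corner : ∀ a b x y : ℤ, 0 ≤ a → Dual0 n F (x, y) → (x = a - 1 ∨ x = a) →
      (y = b - 1 ∨ y = b) → WW (KK n F) (a, b) := by
    intro a b x y ha hDf hx hy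
    obtain ⟨⟨h1, h2, h3⟩, -⟩ := s_D _ hDf
    simp only at h1 h2 h3
    have hxn : x < n := by
      by_contra hcon
      have hxe : ∀ f, Dual0 n F f → f.1 ≤ n := by
        rintro f ⟨y', hy', h⟩
        induction h with
        | refl => simp only; omega
        | @tail g g' _ hst ih =>
          obtain ⟨⟨x1, y1, bo⟩, ⟨-, heT⟩, hcase⟩ := hst
          cases bo
          · have hm' : 0 ≤ x1 ∧ x1 ≤ n ∧ 0 ≤ y1 ∧ y1 < n := by simpa using heT
            simp only [dsrc_false, dtgt_mk] at hcase
            rcases hcase with ⟨h1, h2⟩ | ⟨h1, h2⟩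
            · rw [← h2]; exact hm'.2.1
            · rw [← h1]; simp only; omega
          · have hm' : 0 ≤ x1 ∧ x1 < n ∧ 0 < y1 ∧ y1 < n := by simpa using heT
            simp only [dsrc_true, dtgt_mk] at hcase
            rcases hcase with ⟨h1, h2⟩ | ⟨h1, h2⟩
            · rw [← h2]; exact hm'.2.1.le
            · rw [← h1]; exact hm'.2.1.le
      have h4 := hxe _ hDf
      simp only at h4
      have h5 : x = n := by omega
      rw [h5] at hDf
      exact hgood y h2 h3 hDf
    rcases hx with hx | hx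
    · -- edge `V(a, y)` with `dsrc = (a - 1, y)`
      refine ⟨(a, y, false), ?_, ?_⟩
      · rw [mem_KK]
        refine ⟨by simp only [mem_TBE_false]; omega, Or.inl ?_⟩
        rw [dsrc_false, ← hx]; exact hDf
      · rcases hy with hy | hy
        · right; rw [tgt_false, hy]; simp
        · left; rw [src_mk, hy]
    · refine ⟨(a, y, false), ?_, ?_⟩
      · rw [mem_KK]
        refine ⟨by simp only [mem_TBE_false]; omega, Or.inr ?_⟩
        rw [dtgt_mk, ← hx]; exact hDf
      · rcases hy with hy | hy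
        · right; rw [tgt_false, hy]; simp
        · left; rw [src_mk, hy]
  -- `s` around vertices whose edges are not in the cut
  have spread : ∀ a b x0 y0, 0 ≤ a → (z (a, b, false) = 0 ∧ z (a, b - 1, false) = 0 ∧
      z (a, b, true) = 0 ∧ z (a - 1, b, true) = 0) → (x0 = a - 1 ∨ x0 = a) →
      (y0 = b - 1 ∨ y0 = b) → 0 ≤ y0 → y0 < n → ∀ x y, (x = a - 1 ∨ x = a) →
      (y = b - 1 ∨ y = b) → 0 ≤ y → y < n → s x y = s x0 y0 := by
    intro a b x0 y0 ha hz4 hx0 hy0 h0 h1
    obtain ⟨z1, z2, z3, z4⟩ := hz4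
    have c1 : s a b = s (a - 1) b := by rw [sH a b ha, z1, add_zero]
    have c2 : s a (b - 1) = s (a - 1) (b - 1) := by rw [sH a (b - 1) ha, z2, add_zero]
    have c3 : 0 < b → b < n → s a b = s a (b - 1) := by
      intro k1 k2
      have := sV a b (by omega) k1 k2
      rw [z3] at this
      have f1 := zmod2_add_self (s a (b - 1))
      linear_combination this - f1
    intro x y hx hy k0 k1
    have hrow : s a y = s (a - 1) y := by
      rcases hy with hy | hy
      · rw [hy]; exact c2
      · rw [hy]; exact c1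
    have hrow0 : s a y0 = s (a - 1) y0 := by
      rcases hy0 with hy | hy
      · rw [hy]; exact c2
      · rw [hy]; exact c1
    have hx' : s x y = s a y := by
      rcases hx with hx | hx
      · rw [hx, hrow]
      · rw [hx]
    have hx0' : s x0 y0 = s a y0 := by
      rcases hx0 with hx | hx
      · rw [hx, hrow0]
      · rw [hx]
    rw [hx', hx0']
    rcases hy with hy | hy <;> rcases hy0 with hy0 | hy0
    · rw [hy, hy0]
    · rw [hy, hy0, ← c3 (by omega) (by omega)]
    · rw [hy, hy0, c3 (by omega) (by omega)]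
    · rw [hy, hy0]
  have zzK : ∀ a b, ¬ WW (KK n F) (a, b) → z (a, b, false) = 0 ∧ z (a, b - 1, false) = 0 ∧
      z (a, b, true) = 0 ∧ z (a - 1, b, true) = 0 := by
    intro a b hW
    refine ⟨z_notK _ ?_, z_notK _ ?_, z_notK _ ?_, z_notK _ ?_⟩ <;> intro hK <;> apply hW
    · exact ⟨_, hK, Or.inl rfl⟩
    · exact ⟨_, hK, Or.inr (by simp)⟩
    · exact ⟨_, hK, Or.inl rfl⟩
    · exact ⟨_, hK, Or.inr (by simp)⟩
  have zzC : ∀ a b, ¬ C (a, b) → z (a, b, false) = 0 ∧ z (a, b - 1, false) = 0 ∧
      z (a, b, true) = 0 ∧ z (a - 1, b, true) = 0 := by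
    intro a b hW
    exact ⟨z_notC _ (Or.inl (by simpa using hW)), z_notC _ (Or.inr (by simpa using hW)),
      z_notC _ (Or.inl (by simpa using hW)), z_notC _ (Or.inr (by simpa using hW))⟩
  -- adjacent vertices share a face
  have share : ∀ u u' : Vtx, Adj {e | InS n e} u u' →
      ∃ x y, (x = u.1 - 1 ∨ x = u.1) ∧ (y = u.2 - 1 ∨ y = u.2) ∧
        (x = u'.1 - 1 ∨ x = u'.1) ∧ (y = u'.2 - 1 ∨ y = u'.2) ∧ 0 ≤ y ∧ y < n := by
    rintro ⟨a, b⟩ ⟨a', b'⟩ ⟨⟨x1, y1, bo⟩, heI, hcase⟩
    simp only [InS, Set.mem_setOf_eq] at heI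
    cases bo
    · simp only [src_mk, tgt_false, Prod.mk.injEq] at hcase heI
      refine ⟨x1, y1, ?_, ?_, ?_, ?_, ?_, ?_⟩
      · rcases hcase with h | h <;> omega
      · rcases hcase with h | h <;> omega
      · rcases hcase with h | h <;> omega
      · rcases hcase with h | h <;> omega
      · omega
      · omega
    · simp only [src_mk, tgt_true, Prod.mk.injEq] at hcase heI
      by_cases hz0 : y1 = 0
      · refine ⟨x1, 0, ?_, ?_, ?_, ?_, ?_, ?_⟩
        · rcases hcase with h | h <;> omega
        · rcases hcase with h | h <;> omega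
        · rcases hcase with h | h <;> omega
        · rcases hcase with h | h <;> omega
        · omega
        · omega
      · refine ⟨x1, y1 - 1, ?_, ?_, ?_, ?_, ?_, ?_⟩
        · rcases hcase with h | h <;> omega
        · rcases hcase with h | h <;> omega
        · rcases hcase with h | h <;> omega
        · rcases hcase with h | h <;> omega
        · omega
        · omega
  -- all faces around `Far` vertices have the value `q`
  have walk : ∀ u, Far n (KK n F) u → (1 ≤ u.1 ∧ 0 ≤ u.2 ∧ u.2 ≤ n) ∧ ¬ WW (KK n F) u ∧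
      ∀ x y, (x = u.1 - 1 ∨ x = u.1) → (y = u.2 - 1 ∨ y = u.2) → 0 ≤ y → y < n →
        s x y = q := by
    rintro u ⟨u0, ⟨h01, h02, h03⟩, hu⟩
    induction hu with
    | refl =>
      refine ⟨⟨by omega, h02, h03⟩, ?_, ?_⟩
      · intro hW
        obtain ⟨a, b⟩ := u0
        have := WW_range hW
        simp only at h01
        omega
      · intro x y hx hy h0 h1
        exact s_big x y (by omega) h0 h1
    | @tail u u' _ hst ih =>
      obtain ⟨⟨i1, i2, i3⟩, iW, iP⟩ := ih
      obtain ⟨e, ⟨heI, he1, he2⟩, hcase⟩ := hst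
      have hadj' : Adj {e | InS n e} u u' := ⟨e, heI, hcase⟩
      have hT' : ¬ WW (KK n F) u' := by
        rcases hcase with ⟨h1, h2⟩ | ⟨h1, h2⟩
        · rw [← h2]; exact he2
        · rw [← h1]; exact he1
      obtain ⟨x, y, k1, k2, k3, k4, k5, k6⟩ := share u u' hadj'
      obtain ⟨a, b⟩ := u
      obtain ⟨a', b'⟩ := u'
      have hrange : 0 ≤ a' ∧ 0 ≤ b' ∧ b' ≤ n := by
        obtain ⟨x1, y1, bo⟩ := e
        simp only [InS] at heI
        cases bo
        · simp only [src_mk, tgt_false, Prod.mk.injEq] at hcase heI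
          simp only at i1 i2 i3
          rcases hcase with h | h <;> omega
        · simp only [src_mk, tgt_true, Prod.mk.injEq] at hcase heI
          simp only at i1 i2 i3
          rcases hcase with h | h <;> omega
      have ha1 : 1 ≤ a' := by
        by_contra hlt
        have : a' = 0 := by omega
        subst this
        exact hT' (KK_col hn F b' hrange.2.1 hrange.2.2)
      refine ⟨⟨ha1, hrange.2.1, hrange.2.2⟩, hT', ?_⟩
      intro x' y' hx' hy' h0 h1
      rw [spread a' b' x y hrange.1 (zzK a' b' hT') k3 k4 k5 k6 x' y' hx' hy' h0 h1]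
      exact iP x y k1 k2 k5 k6
  -- a dual face next to a point of `WW`
  have dface : ∀ a b, WW (KK n F) (a, b) → ∃ x y, (x = a - 1 ∨ x = a) ∧ (y = b - 1 ∨ y = b) ∧
      Dual0 n F (x, y) := by
    rintro a b ⟨e, heK, hew⟩
    rw [mem_KK] at heK
    obtain ⟨heT, heD⟩ := heK
    obtain ⟨x1, y1, bo⟩ := e
    cases bo
    · simp only [src_mk, tgt_false, Prod.mk.injEq] at hew
      simp only [dsrc_false, dtgt_mk] at heD
      rcases heD with h | h
      · exact ⟨x1 - 1, y1, by omega, by omega, h⟩
      · exact ⟨x1, y1, by omega, by omega, h⟩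
    · simp only [src_mk, tgt_true, Prod.mk.injEq] at hew
      simp only [dsrc_true, dtgt_mk] at heD
      rcases heD with h | h
      · exact ⟨x1, y1 - 1, by omega, by omega, h⟩
      · exact ⟨x1, y1, by omega, by omega, h⟩
  -- the point `v`: `q = 1`
  have hq1 : q = 1 := by
    obtain ⟨hvW, u, huF, hadj⟩ := hv
    obtain ⟨⟨i1, i2, i3⟩, iW, iP⟩ := walk u huF
    obtain ⟨gx, gy, k1, k2, k3, k4, k5, k6⟩ := share u v hadj
    have hgs : s gx gy = q := iP gx gy k1 k2 k5 k6
    have hgD : ¬ Dual0 n F (gx, gy) := by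
      intro h
      exact iW (corner _ _ gx gy (by omega) h k1 k2)
    obtain ⟨a, b⟩ := v
    have hwb := WW_range hvW
    simp only at k3 k4
    obtain ⟨fx, fy, l1, l2, l3⟩ := dface a b hvW
    obtain ⟨⟨m1, m2, m3⟩, hfs⟩ := s_D _ l3
    simp only at m1 m2 m3 hfs
    set κ : ℤ → ℤ → ZMod 2 := fun x y => s x y + b2 (Dual0 n F (x, y)) with hκ
    have κH : ∀ y, (y = b - 1 ∨ y = b) → 0 ≤ y → y < n → κ a y = κ (a - 1) y := by
      intro y hy h0 h1
      simp only [hκ]
      have hc : C (src (a, y, false)) ∨ C (tgt (a, y, false)) := by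
        rcases hy with hy | hy
        · right; rw [tgt_false, hy]; simpa using hCv
        · left; rw [src_mk, hy]; exact hCv
      have e1 := z_eq (a, y, false) (by simp only [mem_TBE_false]; omega) hc
      simp only [dsrc_false, dtgt_mk] at e1
      rw [sH a y hwb.1, e1]
      have f1 := zmod2_add_self (b2 (Dual0 n F (a, y)))
      linear_combination f1
    have κV : ∀ x, (x = a - 1 ∨ x = a) → 0 < b → b < n → κ x b = κ x (b - 1) := by
      intro x hx h0 h1
      simp only [hκ]
      have e0 := sV x b (by omega) h0 h1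
      have f1 := zmod2_add_self (s x (b - 1))
      by_cases hx1 : x = -1
      · subst hx1
        rw [s_neg, s_neg, b2_of (D1 b (by omega) h1), b2_of (D1 (b - 1) (by omega) (by omega))]
      by_cases hx2 : x = n
      · subst hx2
        rw [s_big x b le_rfl (by omega) h1, s_big x (b - 1) le_rfl (by omega) (by omega),
          b2_not_of (hgood b (by omega) h1), b2_not_of (hgood (b - 1) (by omega) (by omega))]
      have hc : C (src (x, b, true)) ∨ C (tgt (x, b, true)) := by
        rcases hx with hx | hx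
        · right; rw [tgt_true, hx]; simpa using hCv
        · left; rw [src_mk, hx]; exact hCv
      have e1 := z_eq (x, b, true) (by simp only [mem_TBE_true]; omega) hc
      simp only [dsrc_true, dtgt_mk] at e1
      rw [e1] at e0
      have f2 := zmod2_add_self (b2 (Dual0 n F (x, b)))
      linear_combination e0 - f1 + f2
    have κall : ∀ x y x' y', (x = a - 1 ∨ x = a) → (y = b - 1 ∨ y = b) → 0 ≤ y → y < n →
        (x' = a - 1 ∨ x' = a) → (y' = b - 1 ∨ y' = b) → 0 ≤ y' → y' < n → κ x y = κ x' y' := by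
      intro x y x' y' hx hy h0 h1 hx' hy' h0' h1'
      have r1 : κ x y = κ a y := by
        rcases hx with hx | hx
        · rw [hx, ← κH y hy h0 h1]
        · rw [hx]
      have r2 : κ x' y' = κ a y' := by
        rcases hx' with hx | hx
        · rw [hx, ← κH y' hy' h0' h1']
        · rw [hx]
      rw [r1, r2]
      rcases hy with hy | hy <;> rcases hy' with hy' | hy'
      · rw [hy, hy']
      · rw [hy, hy', κV a (Or.inr rfl) (by omega) (by omega)]
      · rw [hy, hy', κV a (Or.inr rfl) (by omega) (by omega)]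
      · rw [hy, hy']
    have hfin := κall fx fy gx gy l1 l2 m2 m3 k3 k4 k5 k6
    simp only [hκ] at hfin
    rw [hfs, hgs, b2_of l3, b2_not_of hgD] at hfin
    rw [add_zero, zero_add] at hfin
    exact hfin.symm
  -- the point `w`: `q = 0`
  have hq0 : q = 0 := by
    obtain ⟨hwW, u, huF, hadj⟩ := hw
    obtain ⟨⟨i1, i2, i3⟩, iW, iP⟩ := walk u huF
    obtain ⟨gx, gy, k1, k2, k3, k4, k5, k6⟩ := share u w hadj
    have hgs : s gx gy = q := iP gx gy k1 k2 k5 k6
    obtain ⟨a, b⟩ := w
    have hwb := WW_range hwW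
    simp only at k3 k4
    obtain ⟨fx, fy, l1, l2, l3⟩ := dface a b hwW
    obtain ⟨⟨m1, m2, m3⟩, hfs⟩ := s_D _ l3
    simp only at m1 m2 m3 hfs
    rw [← hgs, ← hfs]
    exact spread a b fx fy hwb.1 (zzC a b hCw) l1 l2 m2 m3 gx gy k3 k4 k5 k6
  rw [hq1] at hq0
  exact absurd hq0 (by decide)

end Pool.Agent.Y197.LR.Top
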